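import Pool.Agent.N496.VS.Der
import Pool.Agent.N868.VS.Trig

/-!
# The potential of the sum over `d` (job EK/6): derivatives and real parts
-/

set_option autoImplicit false

namespace Pool.Agent.N559.EK

open Filter Topology Metric Set
open scoped Real
open Pool.Agent.N561 Pool.Agent.N496.VS Pool.Agent.N868.VS

/-- one half of the potential -/
noncomputable def R1 (ψ δ : ℂ) : ℂ := RR δ ψ - 2 * (LS (π * δ) / π)

/-- its first derivative -/
noncomputable def RE (ψ δ : ℂ) : ℂ := Complex.log (2 * Complex.cos (π * δ + ψ / 2)) +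
  Complex.log (2 * Complex.cos (π * δ - ψ / 2)) - 2 * Complex.log (2 * Complex.sin (π * δ))

/-- its second derivative -/
noncomputable def RF (ψ δ : ℂ) : ℂ := -π * (Complex.sin (π * δ + ψ / 2) /
    Complex.cos (π * δ + ψ / 2) + Complex.sin (π * δ - ψ / 2) / Complex.cos (π * δ - ψ / 2)) -
    2 * π * (Complex.cos (π * δ) / Complex.sin (π * δ))

theorem TH_eq (ψ φ δ : ℂ) : TH ψ φ δ = R1 ψ δ + R1 φ δ := by
  unfold TH R1
  ring

/-! ### Domains -/

theorem pi_re (δ : ℂ) : ((π : ℂ) * δ).re = π * δ.re := by simp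

theorem pi_im (δ : ℂ) : ((π : ℂ) * δ).im = π * δ.im := by simp

theorem half_re (ψ : ℂ) : (ψ / 2).re = ψ.re / 2 := by simp

theorem half_im (ψ : ℂ) : (ψ / 2).im = ψ.im / 2 := by simp

theorem abs_add_lt {ψ δ : ℂ} (h0 : 0 < δ.re) (h1 : δ.re < 33 / 100) (hψ : |ψ.re| ≤ 21 / 20) :
    |(π * δ + ψ / 2).re| < π / 2 := by
  rw [Complex.add_re, pi_re, half_re]
  have p1 := Real.pi_gt_d2
  have p2 := Real.pi_lt_d2
  have h2 := mul_pos Real.pi_pos h0
  have h3 : π * δ.re ≤ 3.15 * (33 / 100) := by nlinarith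
  rw [abs_le] at hψ
  rw [abs_lt]
  constructor <;> linarith [hψ.1, hψ.2]

theorem abs_sub_lt {ψ δ : ℂ} (h0 : 0 < δ.re) (h1 : δ.re < 33 / 100) (hψ : |ψ.re| ≤ 21 / 20) :
    |(π * δ - ψ / 2).re| < π / 2 := by
  rw [Complex.sub_re, pi_re, half_re]
  have p1 := Real.pi_gt_d2
  have p2 := Real.pi_lt_d2
  have h2 := mul_pos Real.pi_pos h0
  have h3 : π * δ.re ≤ 3.15 * (33 / 100) := by nlinarith
  rw [abs_le] at hψ
  rw [abs_lt]
  constructor <;> linarith [hψ.1, hψ.2]

theorem mem_DL {w : ℂ} (h : |w.re| < π / 2) : w ∈ DL :=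
  ⟨by linarith [Real.pi_pos], Or.inr h⟩

theorem mem_add {ψ δ : ℂ} (h0 : 0 < δ.re) (h1 : δ.re < 33 / 100) (hψ : |ψ.re| ≤ 21 / 20) :
    π * δ + ψ / 2 ∈ DL := mem_DL (abs_add_lt h0 h1 hψ)

theorem mem_sub {ψ δ : ℂ} (h0 : 0 < δ.re) (h1 : δ.re < 33 / 100) (hψ : |ψ.re| ≤ 21 / 20) :
    π * δ - ψ / 2 ∈ DL := mem_DL (abs_sub_lt h0 h1 hψ)

theorem mem_DS {δ : ℂ} (h0 : 0 < δ.re) (h1 : δ.re < 33 / 100) : π * δ ∈ DS := by
  unfold DS
  simp only [Set.mem_ofPred_eq, pi_re]
  have := Real.pi_pos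
  constructor
  · positivity
  · nlinarith

theorem R1_deriv {ψ δ : ℂ} (h0 : 0 < δ.re) (h1 : δ.re < 33 / 100) (hψ : |ψ.re| ≤ 21 / 20) :
    HasDerivAt (R1 ψ) (RE ψ δ) δ := by
  have hpi := pi_ne
  have e0 : HasDerivAt (fun δ : ℂ => π * δ) (π : ℂ) δ := by
    simpa using (hasDerivAt_id δ).const_mul (π : ℂ)
  have k1 := (LL_deriv (mem_add h0 h1 hψ)).comp δ (e0.add_const (ψ / 2))
  have k2 := (LL_deriv (mem_sub h0 h1 hψ)).comp δ (e0.sub_const (ψ / 2))
  have k5 := (LS_deriv (mem_DS h0 h1)).comp δ e0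
  have k := ((k1.add k2).div_const (π : ℂ)).sub ((k5.div_const (π : ℂ)).const_mul 2)
  refine (k.congr_deriv ?_).congr_of_eventuallyEq (Eventually.of_forall fun z => ?_)
  · unfold RE
    field_simp
  · unfold R1 RR
    rfl

theorem RE_deriv {ψ δ : ℂ} (h0 : 0 < δ.re) (h1 : δ.re < 33 / 100) (hψ : |ψ.re| ≤ 21 / 20) :
    HasDerivAt (RE ψ) (RF ψ δ) δ := by
  have e0 : HasDerivAt (fun δ : ℂ => π * δ) (π : ℂ) δ := by
    simpa using (hasDerivAt_id δ).const_mul (π : ℂ)
  have k1 := lc_deriv (e0.add_const (ψ / 2)) (mem_add h0 h1 hψ)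
  have k2 := lc_deriv (e0.sub_const (ψ / 2)) (mem_sub h0 h1 hψ)
  have k5 := ls_deriv e0 (mem_DS h0 h1)
  have k := (k1.add k2).sub (k5.const_mul 2)
  refine k.congr_deriv ?_
  unfold RF
  ring

/-- the derivative in the parameter -/
theorem R1_par {ψ δ : ℂ} (h0 : 0 < δ.re) (h1 : δ.re < 33 / 100) (hψ : |ψ.re| ≤ 21 / 20) :
    HasDerivAt (fun z => R1 z δ) (1 / (2 * π) * (Complex.log (2 * Complex.cos (π * δ + ψ / 2)) -
      Complex.log (2 * Complex.cos (π * δ - ψ / 2)))) ψ := by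
  have hpi := pi_ne
  have e0 : HasDerivAt (fun z : ℂ => z / 2) (1 / 2 : ℂ) ψ := by
    simpa using (hasDerivAt_id ψ).div_const (2 : ℂ)
  have k1 := (LL_deriv (mem_add h0 h1 hψ)).comp ψ (e0.const_add (π * δ))
  have k2 := (LL_deriv (mem_sub h0 h1 hψ)).comp ψ (e0.const_sub (π * δ))
  have k := ((k1.add k2).div_const (π : ℂ)).sub_const (2 * (LS (π * δ) / π))
  refine (k.congr_deriv ?_).congr_of_eventuallyEq (Eventually.of_forall fun z => ?_)
  · field_simp
    ring
  · unfold R1 RR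
    rfl

theorem R1_neg (ψ δ : ℂ) : R1 (-ψ) δ = R1 ψ δ := by
  unfold R1 RR
  have e1 : (π : ℂ) * δ + -ψ / 2 = π * δ - ψ / 2 := by ring
  have e2 : (π : ℂ) * δ - -ψ / 2 = π * δ + ψ / 2 := by ring
  rw [e1, e2]
  ring

/-! ### Real and imaginary parts along paths -/

theorem re_path {f : ℂ → ℂ} {f' : ℂ} {γ : ℝ → ℂ} {γ' : ℂ} {x : ℝ} (hf : HasDerivAt f f' (γ x))
    (hγ : HasDerivAt γ γ' x) : HasDerivAt (fun t => (f (γ t)).re) (f' * γ').re x := by
  have h := (hf.hasFDerivAt.restrictScalars ℝ).comp_hasDerivAt x hγ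
  have h2 := (Complex.reCLM.hasFDerivAt (x := f (γ x))).comp_hasDerivAt x h
  refine h2.congr_deriv ?_
  simp [mul_comm]

theorem im_path {f : ℂ → ℂ} {f' : ℂ} {γ : ℝ → ℂ} {γ' : ℂ} {x : ℝ} (hf : HasDerivAt f f' (γ x))
    (hγ : HasDerivAt γ γ' x) : HasDerivAt (fun t => (f (γ t)).im) (f' * γ').im x := by
  have h := (hf.hasFDerivAt.restrictScalars ℝ).comp_hasDerivAt x hγ
  have h2 := (Complex.imCLM.hasFDerivAt (x := f (γ x))).comp_hasDerivAt x h
  refine h2.congr_deriv ?_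
  simp [mul_comm]

/-- horizontal path -/
theorem path_h (x y : ℝ) : HasDerivAt (fun t : ℝ => (t : ℂ) + y * Complex.I) 1 x :=
  (Complex.ofRealCLM.hasDerivAt (x := x)).add_const _ |>.congr_deriv (by simp)

/-- vertical path -/
theorem path_v (x y : ℝ) : HasDerivAt (fun t : ℝ => (x : ℂ) + t * Complex.I) Complex.I y :=
  (((Complex.ofRealCLM.hasDerivAt (x := y)).mul_const Complex.I).const_add _).congr_deriv (by simp)

theorem xy_re (x y : ℝ) : ((x : ℂ) + y * Complex.I).re = x := by simp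

theorem xy_im (x y : ℝ) : ((x : ℂ) + y * Complex.I).im = y := by simp

/-! ### Real parts of the logarithmic derivatives -/

theorem nsq_cos (w : ℂ) : Complex.normSq (Complex.cos w) =
    (Real.cos (2 * w.re) + Real.cosh (2 * w.im)) / 2 := by
  rw [Complex.normSq_apply, cos_re, cos_im, Real.cos_two_mul, Real.cosh_two_mul]
  have h1 := Real.sin_sq_add_cos_sq w.re
  have h2 := Real.cosh_sq w.im
  have h3 : Real.sin w.re ^ 2 = 1 - Real.cos w.re ^ 2 := by linarith
  linear_combination (Real.sinh w.im ^ 2) * h1 + (Real.cos w.re ^ 2 - 1 / 2) * h2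

theorem nsq_sin (w : ℂ) : Complex.normSq (Complex.sin w) =
    (Real.cosh (2 * w.im) - Real.cos (2 * w.re)) / 2 := by
  rw [Complex.normSq_apply, sin_re, sin_im, Real.cos_two_mul, Real.cosh_two_mul]
  have h1 := Real.sin_sq_add_cos_sq w.re
  have h2 := Real.cosh_sq w.im
  linear_combination (Real.cosh w.im ^ 2) * h1 + (1 / 2 - Real.cos w.re ^ 2) * h2

theorem sc_re (w : ℂ) : (Complex.sin w / Complex.cos w).re =
    Real.sin (2 * w.re) / (Real.cos (2 * w.re) + Real.cosh (2 * w.im)) := by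
  have h2 := Real.cosh_sq w.im
  rw [Complex.div_re, nsq_cos, ← add_div]
  have e : (Complex.sin w).re * (Complex.cos w).re + (Complex.sin w).im * (Complex.cos w).im =
      Real.sin (2 * w.re) / 2 := by
    rw [cos_re, cos_im, sin_re, sin_im, Real.sin_two_mul]
    linear_combination (Real.sin w.re * Real.cos w.re) * h2
  rw [e, div_div_div_cancel_right₀ (by norm_num)]

theorem cs_re (w : ℂ) : (Complex.cos w / Complex.sin w).re =
    Real.sin (2 * w.re) / (Real.cosh (2 * w.im) - Real.cos (2 * w.re)) := by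
  have h2 := Real.cosh_sq w.im
  rw [Complex.div_re, nsq_sin, ← add_div]
  have e : (Complex.cos w).re * (Complex.sin w).re + (Complex.cos w).im * (Complex.sin w).im =
      Real.sin (2 * w.re) / 2 := by
    rw [cos_re, cos_im, sin_re, sin_im, Real.sin_two_mul]
    linear_combination (Real.sin w.re * Real.cos w.re) * h2
  rw [e, div_div_div_cancel_right₀ (by norm_num)]

/-- `-1 / π` times the real part of the second derivative -/
noncomputable def GG1 (A B u v : ℝ) : ℝ := Real.sin (A + u) / (Real.cos (A + u) + Real.cosh (B + v)) +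
  Real.sin (A - u) / (Real.cos (A - u) + Real.cosh (B - v)) +
  2 * (Real.sin A / (Real.cosh B - Real.cos A))

theorem RF_re (ψ δ : ℂ) : (RF ψ δ).re =
    -(π * GG1 (2 * π * δ.re) (2 * π * δ.im) ψ.re ψ.im) := by
  have e : RF ψ δ = ((-π : ℝ) : ℂ) * (Complex.sin (π * δ + ψ / 2) /
    Complex.cos (π * δ + ψ / 2) + Complex.sin (π * δ - ψ / 2) / Complex.cos (π * δ - ψ / 2)) +
    ((-(2 * π) : ℝ) : ℂ) * (Complex.cos (π * δ) / Complex.sin (π * δ)) := by
    unfold RF
    push_cast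
    ring
  rw [e, Complex.add_re, Complex.re_ofReal_mul, Complex.re_ofReal_mul, Complex.add_re, sc_re, sc_re,
    cs_re, Complex.add_re, Complex.add_im, Complex.sub_re, Complex.sub_im, pi_re, pi_im, half_re,
    half_im]
  unfold GG1
  have e1 : 2 * (π * δ.re + ψ.re / 2) = 2 * π * δ.re + ψ.re := by ring
  have e2 : 2 * (π * δ.im + ψ.im / 2) = 2 * π * δ.im + ψ.im := by ring
  have e3 : 2 * (π * δ.re - ψ.re / 2) = 2 * π * δ.re - ψ.re := by ring
  have e4 : 2 * (π * δ.im - ψ.im / 2) = 2 * π * δ.im - ψ.im := by ring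
  have e5 : 2 * (π * δ.re) = 2 * π * δ.re := by ring
  have e6 : 2 * (π * δ.im) = 2 * π * δ.im := by ring
  rw [e1, e2, e3, e4, e5, e6]
  ring

theorem GG1_neg (A B u v : ℝ) : GG1 A B (-u) (-v) = GG1 A B u v := by
  unfold GG1
  have e1 : A + -u = A - u := by ring
  have e2 : A - -u = A + u := by ring
  have e3 : B + -v = B - v := by ring
  have e4 : B - -v = B + v := by ring
  rw [e1, e2, e3, e4]
  ring

theorem log_re_cos (w : ℂ) : (Complex.log (2 * Complex.cos w)).re =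
    1 / 2 * Real.log (2 * (Real.cos (2 * w.re) + Real.cosh (2 * w.im))) := by
  rw [Complex.log_re]
  have h1 : ‖2 * Complex.cos w‖ ^ 2 = 2 * (Real.cos (2 * w.re) + Real.cosh (2 * w.im)) := by
    rw [norm_mul, mul_pow, ← Complex.normSq_eq_norm_sq (Complex.cos w), nsq_cos]
    simp
    ring
  rw [← h1, Real.log_pow]
  push_cast
  ring

theorem log_re_sin (w : ℂ) : (Complex.log (2 * Complex.sin w)).re =
    1 / 2 * Real.log (2 * (Real.cosh (2 * w.im) - Real.cos (2 * w.re))) := by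
  rw [Complex.log_re]
  have h1 : ‖2 * Complex.sin w‖ ^ 2 = 2 * (Real.cosh (2 * w.im) - Real.cos (2 * w.re)) := by
    rw [norm_mul, mul_pow, ← Complex.normSq_eq_norm_sq (Complex.sin w), nsq_sin]
    simp
    ring
  rw [← h1, Real.log_pow]
  push_cast
  ring

end Pool.Agent.N559.EK
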