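import Pool.Agent.N559.EK.G
import Pool.Agent.N561.EK.Stm

/-!
# The critical point of the sum over `d` (job EK/6)
-/

set_option autoImplicit false

namespace Pool.Agent.N559.EK

open Filter Topology Metric Set
open scoped Real
open Pool.Agent.N561 Pool.Agent.N496.VS Pool.Agent.N868.VS
open Pool.Agent.N561.EK (DD POT rr)

theorem DD_re {ψ : ℂ} (h : ψ ∈ DD) : |ψ.re| ≤ 21 / 20 := h.1.le

theorem DD_im {ψ : ℂ} (h : ψ ∈ DD) : |ψ.im| ≤ 1 / 4 := h.2.le

theorem half_bounds {ψ : ℂ} (hu : |ψ.re| ≤ 21 / 20) (hv : |ψ.im| ≤ 1 / 4) :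
    86 / 100 ≤ (Complex.cos (ψ / 2)).re ∧ (Complex.cos (ψ / 2)).re ≤ 101 / 100 ∧
      |(Complex.cos (ψ / 2)).im| ≤ 63 / 1000 := by
  have p1 := pi_lo
  have hu2 : |ψ.re / 2| ≤ 21 / 40 := by rw [abs_div, abs_two]; linarith
  have hv2 : |ψ.im / 2| ≤ 1 / 8 := by rw [abs_div, abs_two]; linarith
  have hc : 8653 / 10000 ≤ Real.cos (ψ.re / 2) := by
    rw [← Real.cos_abs]
    have h1 : Real.cos (21 / 40) ≤ Real.cos |ψ.re / 2| :=
      Real.cos_le_cos_of_nonneg_of_le_pi (abs_nonneg _) (by linarith) hu2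
    have h2 : (8653 / 10000 : ℝ) ≤ Real.cos (21 / 40) := le_cos' (by norm_num) (by norm_num)
    linarith
  have hs : |Real.sin (ψ.re / 2)| ≤ 5013 / 10000 := by
    have h1 : |Real.sin (ψ.re / 2)| = Real.sin |ψ.re / 2| :=
      Real.abs_sin_eq_sin_abs_of_abs_le_pi (by linarith)
    rw [h1]
    have h2 : Real.sin |ψ.re / 2| ≤ Real.sin (21 / 40) :=
      Real.sin_le_sin_of_le_of_le_pi_div_two (by linarith [abs_nonneg (ψ.re / 2)]) (by linarith) hu2
    exact h2.trans ((sin_le5 (by norm_num)).trans (by norm_num))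
  have hsh : |Real.sinh (ψ.im / 2)| ≤ 1254 / 10000 := by
    rw [Real.abs_sinh]
    have h1 : Real.sinh |ψ.im / 2| ≤ Real.sinh (1 / 8) := Real.sinh_le_sinh.2 hv2
    exact h1.trans (sinh_le' (by norm_num) (by norm_num) (by norm_num))
  have hch := Real.one_le_cosh (ψ.im / 2)
  have hch2 : Real.cosh (ψ.im / 2) ≤ 1008 / 1000 :=
    (cosh_mono hv2).trans (cosh_le' (by norm_num) (by norm_num) (by norm_num))
  have hc1 := Real.cos_le_one (ψ.re / 2)
  have hre : (Complex.cos (ψ / 2)).re = Real.cos (ψ.re / 2) * Real.cosh (ψ.im / 2) := by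
    rw [cos_re, half_re, half_im]
  have him : (Complex.cos (ψ / 2)).im = -(Real.sin (ψ.re / 2) * Real.sinh (ψ.im / 2)) := by
    rw [cos_im, half_re, half_im]
  refine ⟨by rw [hre]; nlinarith, by rw [hre]; nlinarith, ?_⟩
  rw [him, abs_neg, abs_mul]
  calc |Real.sin (ψ.re / 2)| * |Real.sinh (ψ.im / 2)| ≤ 5013 / 10000 * (1254 / 10000) :=
        mul_le_mul hs hsh (abs_nonneg _) (by norm_num)
    _ ≤ _ := by norm_num

theorem sin_half_sq {ψ : ℂ} (hu : |ψ.re| ≤ 21 / 20) (hv : |ψ.im| ≤ 1 / 4) :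
    ‖Complex.sin (ψ / 2) ^ 2‖ ≤ 27 / 100 := by
  rw [norm_pow, ← Complex.normSq_eq_norm_sq, nsq_sin, half_re, half_im]
  have e7 : 2 * (ψ.re / 2) = ψ.re := by ring
  have e8 : 2 * (ψ.im / 2) = ψ.im := by ring
  rw [e7, e8]
  have h1 := cos_u hu
  have h2 := cosh_v hv
  linarith

theorem rr_sq (ψ φ : ℂ) : rr ψ φ ^ 2 = 1 - Complex.sin (ψ / 2) ^ 2 * Complex.sin (φ / 2) ^ 2 := by
  unfold rr
  rw [← Complex.cpow_nat_mul]
  norm_num

theorem ww_re_pos (hP : POT) {ψ φ : ℂ} (hψ : ψ ∈ DD) (hφ : φ ∈ DD) : 0 < (ww (ψ, φ)).re := by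
  have hr := hP.rre ψ hψ φ hφ
  have h2 : 0 < (rr ψ φ ^ 2).re := by
    rw [rr_sq, Complex.sub_re, Complex.one_re]
    have h3 : (Complex.sin (ψ / 2) ^ 2 * Complex.sin (φ / 2) ^ 2).re ≤ 27 / 100 * (27 / 100) := by
      refine (Complex.re_le_norm _).trans ?_
      rw [norm_mul]
      exact mul_le_mul (sin_half_sq (DD_re hψ) (DD_im hψ)) (sin_half_sq (DD_re hφ) (DD_im hφ))
        (norm_nonneg _) (by norm_num)
    linarith
  rw [sq_re] at h2
  have him : |(rr ψ φ).im| < (rr ψ φ).re := by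
    rw [← Real.sqrt_sq hr.le, ← Real.sqrt_sq_eq_abs]
    exact Real.sqrt_lt_sqrt (sq_nonneg _) (by linarith)
  obtain ⟨a1, a2, a3⟩ := half_bounds (DD_re hψ) (DD_im hψ)
  obtain ⟨b1, b2, b3⟩ := half_bounds (DD_re hφ) (DD_im hφ)
  have e : ww (ψ, φ) = Complex.cos (ψ / 2) * Complex.cos (φ / 2) / rr ψ φ := rfl
  rw [e, Complex.div_re, ← add_div]
  have hn : 0 < Complex.normSq (rr ψ φ) := by
    rw [Complex.normSq_pos]
    intro h
    rw [h] at hr
    simp at hr
  refine div_pos ?_ hn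
  rw [Complex.mul_re, Complex.mul_im]
  rw [abs_le] at a3 b3
  rw [abs_lt] at him
  set x := (Complex.cos (ψ / 2)).re
  set y := (Complex.cos (ψ / 2)).im
  set x' := (Complex.cos (φ / 2)).re
  set y' := (Complex.cos (φ / 2)).im
  have k1 : 73 / 100 ≤ x * x' - y * y' := by nlinarith
  have k2 : |x * y' + y * x'| ≤ 13 / 100 := by
    rw [abs_le]
    constructor <;> nlinarith
  rw [abs_le] at k2
  set p := x * x' - y * y'
  set q := x * y' + y * x'
  nlinarith [mul_nonneg (show 0 ≤ q + 13 / 100 by linarith [k2.1])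
    (show 0 ≤ (rr ψ φ).im + (rr ψ φ).re by linarith [him.1]),
    mul_nonneg (show 0 ≤ 13 / 100 - q by linarith [k2.2])
    (show 0 ≤ (rr ψ φ).re - (rr ψ φ).im by linarith [him.2])]

theorem dst_range (hP : POT) {ψ φ : ℂ} (hψ : ψ ∈ DD) (hφ : φ ∈ DD) :
    0 < (dst ψ φ).re ∧ (dst ψ φ).re < 1 / 2 := by
  have h := ww_re_pos hP hψ hφ
  have h1 := at_re_pos h
  have h2 := at_re_lt h
  have e : (aa (ψ, φ)).re = π * (dst ψ φ).re := by rw [← pi_dst, pi_re]
  have hp := Real.pi_pos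
  change 0 < (aa (ψ, φ)).re at h1
  change (aa (ψ, φ)).re < π / 2 at h2
  rw [e] at h1 h2
  constructor
  · exact (mul_pos_iff_of_pos_left hp).1 h1
  · nlinarith

/-- the numbers `1 / (1 + cos ψ)` -/
theorem kk_bounds {ψ : ℂ} (hu : |ψ.re| ≤ 21 / 20) (hv : |ψ.im| ≤ 1 / 4) :
    1 + Complex.cos ψ ≠ 0 ∧ 48 / 100 ≤ (1 / (1 + Complex.cos ψ)).re ∧
      (1 / (1 + Complex.cos ψ)).re ≤ 6681 / 10000 ∧
      |(1 / (1 + Complex.cos ψ)).im| ≤ 3 / 10 * (1 / (1 + Complex.cos ψ)).re - 98 / 1000 := by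
  have hk := cos_u hu
  have hk1 := Real.cos_le_one ψ.re
  have hC1 := Real.one_le_cosh ψ.im
  have hC := cosh_v hv
  have hS := sinh_v hv
  have h4 := Real.sin_sq_add_cos_sq ψ.re
  have h5 := Real.cosh_sq ψ.im
  have hre : (1 + Complex.cos ψ).re = 1 + Real.cos ψ.re * Real.cosh ψ.im := by
    rw [Complex.add_re, Complex.one_re, cos_re]
  have him : (1 + Complex.cos ψ).im = -(Real.sin ψ.re * Real.sinh ψ.im) := by
    rw [Complex.add_im, Complex.one_im, cos_im, zero_add]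
  have hns : Complex.normSq (1 + Complex.cos ψ) = (Real.cos ψ.re + Real.cosh ψ.im) ^ 2 := by
    rw [Complex.normSq_apply, hre, him]
    linear_combination (Real.sinh ψ.im ^ 2) * h4 + (Real.cos ψ.re ^ 2 - 1) * h5
  have hd : 0 < Real.cos ψ.re + Real.cosh ψ.im := by linarith
  have hd2 : 0 < (Real.cos ψ.re + Real.cosh ψ.im) ^ 2 := by positivity
  have hne : 1 + Complex.cos ψ ≠ 0 := by
    intro h
    rw [h, map_zero] at hns
    linarith
  have r1 : (1 / (1 + Complex.cos ψ)).re = (1 + Real.cos ψ.re * Real.cosh ψ.im) /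
      (Real.cos ψ.re + Real.cosh ψ.im) ^ 2 := by
    rw [one_div, Complex.inv_re, hns, hre]
  have r2 : (1 / (1 + Complex.cos ψ)).im = (Real.sin ψ.re * Real.sinh ψ.im) /
      (Real.cos ψ.re + Real.cosh ψ.im) ^ 2 := by
    rw [one_div, Complex.inv_im, hns, him, neg_neg]
  refine ⟨hne, ?_, ?_, ?_⟩
  · rw [r1, le_div_iff₀ hd2]
    set κ := Real.cos ψ.re
    set C := Real.cosh ψ.im
    nlinarith [mul_nonneg (sub_nonneg.2 hk) (sub_nonneg.2 hk1),
      mul_nonneg (sub_nonneg.2 hC1) (sub_nonneg.2 hC)]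
  · rw [r1, div_le_iff₀ hd2]
    set κ := Real.cos ψ.re
    set C := Real.cosh ψ.im
    have h6 : (1 + κ * C) * (1 + κ) ≤ (κ + C) ^ 2 := by nlinarith
    have h7 : 1 ≤ 6681 / 10000 * (1 + κ) := by linarith
    have h8 : 0 ≤ 1 + κ * C := by nlinarith
    calc 1 + κ * C ≤ (1 + κ * C) * (6681 / 10000 * (1 + κ)) := le_mul_of_one_le_right h8 h7
      _ = 6681 / 10000 * ((1 + κ * C) * (1 + κ)) := by ring
      _ ≤ 6681 / 10000 * (κ + C) ^ 2 := by linarith
  · rw [r1, r2, abs_div, abs_of_pos hd2, mul_div_assoc', div_le_iff₀ hd2, sub_mul,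
      div_mul_cancel₀ _ hd2.ne', abs_mul]
    have hσ : |Real.sin ψ.re| ≤ (1 - Real.cos ψ.re ^ 2 + 867 / 1000 * (867 / 1000)) /
        (2 * (867 / 1000)) := by
      rw [le_div_iff₀ (by norm_num)]
      have h9 : |Real.sin ψ.re| ^ 2 = 1 - Real.cos ψ.re ^ 2 := by rw [sq_abs]; linarith
      nlinarith [sq_nonneg (|Real.sin ψ.re| - 867 / 1000)]
    have h10 : |Real.sin ψ.re| * |Real.sinh ψ.im| ≤ (1 - Real.cos ψ.re ^ 2 +
        867 / 1000 * (867 / 1000)) / (2 * (867 / 1000)) * (2527 / 10000) :=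
      mul_le_mul hσ hS (abs_nonneg _) ((abs_nonneg _).trans hσ)
    refine h10.trans ?_
    set κ := Real.cos ψ.re
    set C := Real.cosh ψ.im
    have h11 := mul_nonneg (sub_nonneg.2 hk) (sub_nonneg.2 hC1)
    have h12 := mul_nonneg (sub_nonneg.2 hC1) (sub_nonneg.2 hC)
    have h13 := sq_nonneg (κ - 497 / 1000)
    rw [div_mul_eq_mul_div, div_le_iff₀ (by norm_num)]
    linarith

theorem pos (hP : POT) {ψ φ : ℂ} (hψ : ψ ∈ DD) (hφ : φ ∈ DD) : 1 / 5 ≤ (dst ψ φ).re ∧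
    (dst ψ φ).re ≤ 13 / 50 ∧ |(dst ψ φ).im| ≤ 1 / 50 := by
  have p1 := pi_lo
  have p2 := pi_hi
  have hp := Real.pi_pos
  obtain ⟨n1, a1, a2, a3⟩ := kk_bounds (DD_re hψ) (DD_im hψ)
  obtain ⟨n2, b1, b2, b3⟩ := kk_bounds (DD_re hφ) (DD_im hφ)
  obtain ⟨d1, d2⟩ := dst_range hP hψ hφ
  have hc := hP.dcos ψ hψ φ hφ
  have hden := hP.den ψ hψ φ hφ
  set K := 1 / (1 + Complex.cos ψ) + 1 / (1 + Complex.cos φ) with hK
  have hX : Complex.cos (2 * π * dst ψ φ) = 1 - 1 / K := by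
    have hsum : K = (2 + Complex.cos ψ + Complex.cos φ) /
        ((1 + Complex.cos ψ) * (1 + Complex.cos φ)) := by
      rw [hK]
      field_simp
      ring
    rw [hc, hsum]
    field_simp
    ring
  have hR1 : 96 / 100 ≤ K.re := by rw [hK, Complex.add_re]; linarith
  have hR2 : K.re ≤ 13362 / 10000 := by rw [hK, Complex.add_re]; linarith
  have hI : |K.im| ≤ 3 / 10 * K.re - 196 / 1000 := by
    rw [hK, Complex.add_re, Complex.add_im]
    exact (abs_add_le _ _).trans (by linarith)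
  have hnK : Complex.normSq K = K.re ^ 2 + K.im ^ 2 := by rw [Complex.normSq_apply]; ring
  have hnK0 : 0 < K.re ^ 2 + K.im ^ 2 := by nlinarith [sq_nonneg K.im]
  have hXre : (1 - 1 / K).re = 1 - K.re / (K.re ^ 2 + K.im ^ 2) := by
    rw [Complex.sub_re, Complex.one_re, one_div, Complex.inv_re, hnK]
  have hXim : (1 - 1 / K).im = K.im / (K.re ^ 2 + K.im ^ 2) := by
    rw [Complex.sub_im, Complex.one_im, one_div, Complex.inv_im, hnK]
    ring
  have e1 : (2 * (π : ℂ) * dst ψ φ).re = 2 * π * (dst ψ φ).re := by simp [mul_assoc]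
  have e2 : (2 * (π : ℂ) * dst ψ φ).im = 2 * π * (dst ψ φ).im := by simp [mul_assoc]
  have hre := congrArg Complex.re hX
  have him := congrArg Complex.im hX
  rw [cos_re, e1, e2, hXre] at hre
  rw [cos_im, e1, e2, hXim] at him
  set A := 2 * π * (dst ψ φ).re with hA
  set B := 2 * π * (dst ψ φ).im with hB
  have hA0 : 0 < A := by positivity
  have hA1 : A < π := by nlinarith
  have hC1 := Real.one_le_cosh B
  set R := K.re
  set I := K.im
  have hI2 : I ^ 2 ≤ (3 / 10 * R - 196 / 1000) ^ 2 := by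
    rw [← sq_abs I]
    exact pow_le_pow_left₀ (abs_nonneg _) hI 2
  have hup : 1 - R / (R ^ 2 + I ^ 2) ≤ 3088 / 10000 := by
    have : 6912 / 10000 ≤ R / (R ^ 2 + I ^ 2) := by
      rw [le_div_iff₀ hnK0]
      nlinarith [mul_nonneg (sub_nonneg.2 hR1) (sub_nonneg.2 hR2)]
    linarith
  have hlo : -(5 / 100) ≤ 1 - R / (R ^ 2 + I ^ 2) := by
    have : R / (R ^ 2 + I ^ 2) ≤ 105 / 100 := by
      rw [div_le_iff₀ hnK0]
      nlinarith [sq_nonneg I]
    linarith
  have hcos1 : Real.cos A ≤ 3088 / 10000 := by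
    by_contra hcon
    push Not at hcon
    nlinarith
  have hcos2 : -(6 / 100) ≤ Real.cos A := by
    by_contra hcon
    push Not at hcon
    nlinarith
  have hA2 : 2 * π / 5 ≤ A := by
    by_contra hcon
    push Not at hcon
    have h1 : Real.cos (12566373 / 10000000) ≤ Real.cos A :=
      Real.cos_le_cos_of_nonneg_of_le_pi hA0.le (by linarith) (by linarith)
    have h2 : (30886 / 100000 : ℝ) ≤ Real.cos (12566373 / 10000000) :=
      le_cos' (by norm_num) (by norm_num)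
    linarith
  have hA3 : A ≤ 13 * π / 25 := by
    by_contra hcon
    push Not at hcon
    have h1 : Real.cos A ≤ Real.cos (13 * π / 25) :=
      Real.cos_le_cos_of_nonneg_of_le_pi (by positivity) hA1.le hcon.le
    have e : 13 * π / 25 = π / 50 + π / 2 := by ring
    rw [e, Real.cos_add_pi_div_two] at h1
    have h2 : Real.sin (628 / 10000) ≤ Real.sin (π / 50) :=
      Real.sin_le_sin_of_le_of_le_pi_div_two (by linarith) (by linarith) (by linarith)
    have h3 : (61 / 1000 : ℝ) ≤ Real.sin (628 / 10000) := le_sin' (by norm_num) (by norm_num)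
    linarith
  refine ⟨?_, ?_, ?_⟩
  · by_contra hcon
    push Not at hcon
    have : A < 2 * π / 5 := by rw [hA]; nlinarith
    linarith
  · by_contra hcon
    push Not at hcon
    have : 13 * π / 25 < A := by rw [hA]; nlinarith
    linarith
  · have hs : 951 / 1000 ≤ Real.sin A := by
      have h1 := Real.sin_sq_add_cos_sq A
      have h2 : 0 < Real.sin A := Real.sin_pos_of_pos_of_lt_pi hA0 hA1
      have h3 : Real.cos A ^ 2 ≤ (3088 / 10000) ^ 2 := by
        apply sq_le_sq'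
        · linarith
        · exact hcos1
      nlinarith
    have h4 : |Real.sin A * Real.sinh B| ≤ 1149 / 10000 := by
      have h5 : |Real.sin A * Real.sinh B| = |I| / (R ^ 2 + I ^ 2) := by
        rw [← abs_neg, him, abs_div, abs_of_pos hnK0]
      rw [h5, div_le_iff₀ hnK0]
      nlinarith [sq_nonneg I, sq_nonneg (R - 13 / 10)]
    rw [abs_mul, abs_of_pos (by linarith : 0 < Real.sin A)] at h4
    have h6 : |B| ≤ |Real.sinh B| := by
      rw [Real.abs_sinh]
      exact Real.self_le_sinh_iff.2 (abs_nonneg B)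
    have h7 : |Real.sinh B| ≤ 121 / 1000 := by nlinarith [abs_nonneg (Real.sinh B)]
    have h8 : |B| = 2 * π * |(dst ψ φ).im| := by
      rw [hB, abs_mul, abs_of_pos (by positivity : 0 < 2 * π)]
    rw [h8] at h6
    by_contra hcon
    push Not at hcon
    nlinarith

end Pool.Agent.N559.EK
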