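import Pool.Agent.N559.EK.S

/-!
# Properties of the potential of the sum over `d` (job EK/6)
-/

set_option autoImplicit false

namespace Pool.Agent.N559.EK

open Filter Topology Metric Set
open scoped Real
open Pool.Agent.N561 Pool.Agent.N496.VS Pool.Agent.N868.VS
open Pool.Agent.N561.EK (DD POT THS rr)

theorem TH_hor {ψ φ : ℂ} (hψ : |ψ.re| ≤ 21 / 20) (hφ : |φ.re| ≤ 21 / 20) {x : ℝ} (h0 : 0 < x)
    (h1 : x < 33 / 100) (y : ℝ) : HasDerivAt (fun t : ℝ => (TH ψ φ (t + y * Complex.I)).re)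
      ((RE ψ (x + y * Complex.I)).re + (RE φ (x + y * Complex.I)).re) x := by
  have h := (hor1 h0 h1 hψ y).add (hor1 h0 h1 hφ y)
  refine h.congr_of_eventuallyEq (Eventually.of_forall fun t => ?_)
  simp only [TH_eq, Complex.add_re, Pi.add_apply]

theorem RE_hor {ψ φ : ℂ} (hψ : |ψ.re| ≤ 21 / 20) (hφ : |φ.re| ≤ 21 / 20) {x : ℝ} (h0 : 0 < x)
    (h1 : x < 33 / 100) (y : ℝ) :
    HasDerivAt (fun t : ℝ => (RE ψ (t + y * Complex.I)).re + (RE φ (t + y * Complex.I)).re)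
      ((RF ψ (x + y * Complex.I)).re + (RF φ (x + y * Complex.I)).re) x :=
  (hor2 h0 h1 hψ y).add (hor2 h0 h1 hφ y)

theorem TH_ver {ψ φ : ℂ} (hψ : |ψ.re| ≤ 21 / 20) (hφ : |φ.re| ≤ 21 / 20) {x : ℝ} (h0 : 0 < x)
    (h1 : x < 33 / 100) (y : ℝ) : HasDerivAt (fun t : ℝ => (TH ψ φ (x + t * Complex.I)).re)
      (-(RE ψ (x + y * Complex.I)).im + -(RE φ (x + y * Complex.I)).im) y := by
  have h := (ver1 h0 h1 hψ y).add (ver1 h0 h1 hφ y)
  refine h.congr_of_eventuallyEq (Eventually.of_forall fun t => ?_)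
  simp only [TH_eq, Complex.add_re, Pi.add_apply]

/-- the derivative vanishes at `dst` -/
theorem crit (hP : POT) {ψ φ : ℂ} (hψ : ψ ∈ DD) (hφ : φ ∈ DD) :
    RE ψ (dst ψ φ) + RE φ (dst ψ φ) = 0 := by
  obtain ⟨d1, d2, d3⟩ := pos hP hψ hφ
  have h0 : 0 < (dst ψ φ).re := by linarith
  have h1 : (dst ψ φ).re < 33 / 100 := by linarith
  have h := (R1_deriv h0 h1 (DD_re hψ)).add (R1_deriv h0 h1 (DD_re hφ))
  have h2 := hP.dcr ψ hψ φ hφ
  have e : TH ψ φ = R1 ψ + R1 φ := funext fun δ => TH_eq ψ φ δ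
  rw [e] at h2
  exact h.unique h2

/-- the horizontal line through `dst` -/
theorem line_lt (hP : POT) {ψ φ : ℂ} (hψ : ψ ∈ DD) (hφ : φ ∈ DD) {x : ℝ} (h0 : 1 / 50 ≤ x)
    (h1 : x ≤ 8 / 25) (hx : x ≠ (dst ψ φ).re) :
    (TH ψ φ (x + (dst ψ φ).im * Complex.I)).re < (sg ψ φ).re := by
  obtain ⟨d1, d2, d3⟩ := pos hP hψ hφ
  have hc := crit hP hψ hφ
  have hsg : (sg ψ φ).re =
      (TH ψ φ ((dst ψ φ).re + (dst ψ φ).im * Complex.I)).re := by
    rw [Complex.re_add_im]; rfl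
  rw [hsg]
  have hc2 : (RE ψ ((dst ψ φ).re + (dst ψ φ).im * Complex.I)).re +
      (RE φ ((dst ψ φ).re + (dst ψ φ).im * Complex.I)).re = 0 := by
    rw [Complex.re_add_im, ← Complex.add_re, hc, Complex.zero_re]
  set a := (dst ψ φ).re with ha
  set y := (dst ψ φ).im with hy
  set f : ℝ → ℝ := fun t => (TH ψ φ (t + y * Complex.I)).re with hf
  set E : ℝ → ℝ := fun t => (RE ψ (t + y * Complex.I)).re + (RE φ (t + y * Complex.I)).re with hEd
  have hfd : ∀ t : ℝ, 1 / 50 ≤ t → t ≤ 8 / 25 → HasDerivAt f (E t) t := fun t k0 k1 =>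
    TH_hor (DD_re hψ) (DD_re hφ) (by linarith) (by linarith) y
  have hE : StrictAntiOn E (Icc (1 / 50) (8 / 25)) := by
    refine strictAntiOn_of_deriv_neg (convex_Icc _ _) ?_ ?_
    · intro t ht
      exact (RE_hor (DD_re hψ) (DD_re hφ) (by linarith [ht.1]) (by linarith [ht.2])
        y).continuousAt.continuousWithinAt
    · intro t ht
      rw [interior_Icc] at ht
      have := (RE_hor (DD_re hψ) (DD_re hφ) (x := t) (by linarith [ht.1]) (by linarith [ht.2])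
        y).deriv
      rw [this]
      have k1 := RF_neg (ψ := ψ) (δ := (t : ℂ) + y * Complex.I) (by rw [xy_re]; exact ht.1.le)
        (by rw [xy_re]; exact ht.2.le) (by rw [xy_im]; linarith) (DD_re hψ)
      have k2 := RF_neg (ψ := φ) (δ := (t : ℂ) + y * Complex.I) (by rw [xy_re]; exact ht.1.le)
        (by rw [xy_re]; exact ht.2.le) (by rw [xy_im]; linarith) (DD_re hφ)
      linarith
  have hEa : E a = 0 := hc2
  have hcont : ContinuousOn f (Icc (1 / 50) (8 / 25)) := fun t ht =>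
    (hfd t ht.1 ht.2).continuousAt.continuousWithinAt
  change f x < f a
  rcases lt_or_gt_of_ne hx with h | h
  · obtain ⟨c, hc1, hc2⟩ := exists_hasDerivAt_eq_slope f E h
      (hcont.mono (Icc_subset_Icc h0 (by linarith)))
      (fun t ht => hfd t (by linarith [ht.1]) (by linarith [ht.2]))
    have k : E a < E c := hE ⟨by linarith [hc1.1], by linarith [hc1.2]⟩
      ⟨by linarith, by linarith⟩ hc1.2
    rw [hEa, hc2] at k
    have k2 : 0 < a - x := by linarith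
    have k3 := (div_pos_iff_of_pos_right k2).1 k
    linarith
  · obtain ⟨c, hc1, hc2⟩ := exists_hasDerivAt_eq_slope f E h
      (hcont.mono (Icc_subset_Icc (by linarith) h1))
      (fun t ht => hfd t (by linarith [ht.1]) (by linarith [ht.2]))
    have k : E c < E a := hE ⟨by linarith, by linarith⟩
      ⟨by linarith [hc1.1], by linarith [hc1.2]⟩ hc1.1
    rw [hEa, hc2] at k
    have k2 : 0 < x - a := by linarith
    have k3 := (div_lt_iff₀ k2).1 k
    rw [zero_mul] at k3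
    linarith

theorem line_le (hP : POT) {ψ φ : ℂ} (hψ : ψ ∈ DD) (hφ : φ ∈ DD) {x : ℝ} (h0 : 1 / 50 ≤ x)
    (h1 : x ≤ 8 / 25) : (TH ψ φ (x + (dst ψ φ).im * Complex.I)).re ≤ (sg ψ φ).re := by
  rcases eq_or_ne x (dst ψ φ).re with h | h
  · rw [h, Complex.re_add_im]; rfl
  · exact (line_lt hP hψ hφ h0 h1 h).le

/-- the vertical direction -/
theorem vert (hP : POT) {ψ φ : ℂ} (hψ : ψ ∈ DD) (hφ : φ ∈ DD) {x y : ℝ} (h0 : 1 / 20 ≤ x)
    (h1 : x ≤ 8 / 25) (hy : |y| ≤ 1 / 40) :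
    (TH ψ φ (x + y * Complex.I)).re ≤ (sg ψ φ).re + 1546 / 10000 := by
  obtain ⟨d1, d2, d3⟩ := pos hP hψ hφ
  have p2 := pi_hi
  have hl := line_le hP hψ hφ (x := x) (by linarith) h1
  have hb := Convex.norm_image_sub_le_of_norm_hasDerivWithin_le
    (f := fun t : ℝ => (TH ψ φ (x + t * Complex.I)).re)
    (f' := fun t : ℝ => -(RE ψ (x + t * Complex.I)).im + -(RE φ (x + t * Complex.I)).im)
    (s := Icc (-(1 / 40)) (1 / 40)) (x := (dst ψ φ).im) (y := y) (C := π + 292 / 1000)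
    (fun t _ => (TH_ver (DD_re hψ) (DD_re hφ) (by linarith) (by linarith) t).hasDerivWithinAt)
    (fun t ht => by
      have ht' : |t| ≤ 1 / 40 := abs_le.2 ht
      have k1 := RE_im_le (ψ := ψ) (δ := (x : ℂ) + t * Complex.I) (by rw [xy_re]; exact h0)
        (by rw [xy_re]; exact h1) (by rw [xy_im]; exact ht') (DD_re hψ) (DD_im hψ)
      have k2 := RE_im_le (ψ := φ) (δ := (x : ℂ) + t * Complex.I) (by rw [xy_re]; exact h0)
        (by rw [xy_re]; exact h1) (by rw [xy_im]; exact ht') (DD_re hφ) (DD_im hφ)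
      rw [Real.norm_eq_abs]
      have k3 := abs_add_le (-(RE ψ (x + t * Complex.I)).im) (-(RE φ (x + t * Complex.I)).im)
      rw [abs_neg, abs_neg] at k3
      linarith)
    (convex_Icc _ _) (abs_le.1 (by linarith)) (abs_le.1 hy)
  rw [Real.norm_eq_abs, Real.norm_eq_abs] at hb
  have h2 : |y - (dst ψ φ).im| ≤ 9 / 200 := by
    have := abs_sub y (dst ψ φ).im
    linarith
  have h3 : (π + 292 / 1000) * |y - (dst ψ φ).im| ≤ 1546 / 10000 := by
    have hp := Real.pi_pos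
    nlinarith [abs_nonneg (y - (dst ψ φ).im)]
  have h4 := le_abs_self ((TH ψ φ (x + y * Complex.I)).re -
    (TH ψ φ (x + (dst ψ φ).im * Complex.I)).re)
  linarith

/-- monotonicity near the left side -/
theorem left_mono {ψ φ : ℂ} (hψ : |ψ.re| ≤ 21 / 20) (hφ : |φ.re| ≤ 21 / 20) {x x' y : ℝ}
    (h0 : 1 / 50 ≤ x) (hx : x ≤ x') (h1 : x' ≤ 1 / 10) (hy : |y| ≤ 1 / 40) :
    (TH ψ φ (x + y * Complex.I)).re + 2 * (x' - x) ≤ (TH ψ φ (x' + y * Complex.I)).re := by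
  have h := le_of_deriv (a := x) (b := x')
    (f := fun t : ℝ => (TH ψ φ (x + y * Complex.I)).re + 2 * (t - x)) (f' := fun _ => 2)
    (g := fun t : ℝ => (TH ψ φ (t + y * Complex.I)).re)
    (g' := fun t : ℝ => (RE ψ (t + y * Complex.I)).re + (RE φ (t + y * Complex.I)).re)
    (fun t _ => by
      simpa using (((hasDerivAt_id t).sub_const x).const_mul 2).const_add
        ((TH ψ φ (x + y * Complex.I)).re))
    (fun t ht => TH_hor hψ hφ (by linarith [ht.1]) (by linarith [ht.2]) y) (by simp)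
    (fun t ht => by
      have k1 := RE_re_ge (ψ := ψ) (δ := (t : ℂ) + y * Complex.I) (by rw [xy_re]; linarith [ht.1])
        (by rw [xy_re]; linarith [ht.2]) (by rw [xy_im]; exact hy) hψ
      have k2 := RE_re_ge (ψ := φ) (δ := (t : ℂ) + y * Complex.I) (by rw [xy_re]; linarith [ht.1])
        (by rw [xy_re]; linarith [ht.2]) (by rw [xy_im]; exact hy) hφ
      linarith) hx
  exact h

theorem upto (hP : POT) {ψ φ : ℂ} (hψ : ψ ∈ DD) (hφ : φ ∈ DD) {x y : ℝ} (h0 : 1 / 50 ≤ x)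
    (h1 : x ≤ 8 / 25) (hy : |y| ≤ 1 / 40) :
    (TH ψ φ (x + y * Complex.I)).re ≤ (sg ψ φ).re + 1546 / 10000 := by
  rcases le_total (1 / 20) x with h | h
  · exact vert hP hψ hφ h h1 hy
  · have h2 := left_mono (DD_re hψ) (DD_re hφ) h0 h (by norm_num) hy
    have h3 := vert hP hψ hφ (x := 1 / 20) (by norm_num) (by norm_num) hy
    linarith

/-- EK/6 -/
theorem ths : Pool.Agent.N561.EK.S_THS := by
  intro hP
  refine ⟨fun ψ hψ φ hφ => ?_, fun ψ hψ φ hφ x h0 h1 hx => line_lt hP hψ hφ h0 h1 hx,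
    fun ψ hψ φ hφ y hy => ⟨?_, ?_⟩, fun ψ hψ φ hφ x h0 h1 => ?_⟩
  · obtain ⟨d1, d2, d3⟩ := pos hP hψ hφ
    exact ⟨d1, d2, d3.trans (by norm_num)⟩
  · have h2 := left_mono (DD_re hψ) (DD_re hφ) (x := 1 / 50) (x' := 1 / 10) (y := y) le_rfl
      (by norm_num) le_rfl hy
    have h3 := vert hP hψ hφ (x := 1 / 10) (by norm_num) (by norm_num) hy
    linarith
  · obtain ⟨d1, d2, d3⟩ := pos hP hψ hφ
    have k1 := half_side (DD_re hψ) (DD_im hψ) hy d3
    have k2 := half_side (DD_re hφ) (DD_im hφ) hy d3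
    have h3 := line_le hP hψ hφ (x := 1 / 4) (by norm_num) (by norm_num)
    rw [TH_eq, Complex.add_re] at h3 ⊢
    linarith
  · have p1 := pi_lo
    have h40 : |(1 / 40 : ℝ)| ≤ 1 / 40 := by rw [abs_of_pos (by norm_num)]
    have h40' : |-(1 / 40 : ℝ)| ≤ 1 / 40 := by rw [abs_neg, abs_of_pos (by norm_num)]
    have k1 := upto hP hψ hφ h0 h1 h40
    have k2 := upto hP hψ hφ h0 h1 h40'
    have e : (x : ℂ) + ((-(1 / 40) : ℝ) : ℂ) * Complex.I = x - ((1 / 40 : ℝ) : ℂ) * Complex.I := by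
      push_cast; ring
    rw [e] at k2
    constructor <;> linarith

end Pool.Agent.N559.EK
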