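import Pool.Agent.N559.EK.N

/-!
# Bounds of the first derivative (job EK/6)
-/

set_option autoImplicit false

namespace Pool.Agent.N559.EK

open Filter Topology Metric Set
open scoped Real
open Pool.Agent.N561 Pool.Agent.N496.VS Pool.Agent.N868.VS

/-! ### The real part for small `x` -/

theorem RE_re (ψ δ : ℂ) : (RE ψ δ).re =
    1 / 2 * Real.log (2 * (Real.cos (2 * π * δ.re + ψ.re) + Real.cosh (2 * π * δ.im + ψ.im))) +
    1 / 2 * Real.log (2 * (Real.cos (2 * π * δ.re - ψ.re) + Real.cosh (2 * π * δ.im - ψ.im))) -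
    Real.log (2 * (Real.cosh (2 * π * δ.im) - Real.cos (2 * π * δ.re))) := by
  have e : RE ψ δ = Complex.log (2 * Complex.cos (π * δ + ψ / 2)) +
    Complex.log (2 * Complex.cos (π * δ - ψ / 2)) -
    ((2 : ℝ) : ℂ) * Complex.log (2 * Complex.sin (π * δ)) := by
    unfold RE
    push_cast
    ring
  rw [e, Complex.sub_re, Complex.add_re, Complex.re_ofReal_mul, log_re_cos, log_re_cos, log_re_sin,
    Complex.add_re, Complex.add_im, Complex.sub_re, Complex.sub_im, pi_re, pi_im, half_re,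
    half_im]
  have e1 : 2 * (π * δ.re + ψ.re / 2) = 2 * π * δ.re + ψ.re := by ring
  have e2 : 2 * (π * δ.im + ψ.im / 2) = 2 * π * δ.im + ψ.im := by ring
  have e3 : 2 * (π * δ.re - ψ.re / 2) = 2 * π * δ.re - ψ.re := by ring
  have e4 : 2 * (π * δ.im - ψ.im / 2) = 2 * π * δ.im - ψ.im := by ring
  have e5 : 2 * (π * δ.re) = 2 * π * δ.re := by ring
  have e6 : 2 * (π * δ.im) = 2 * π * δ.im := by ring
  rw [e1, e2, e3, e4, e5, e6]
  ring

theorem half_log {a b d : ℝ} (ha : 0 < a) (hb : 0 < b) (hd : 0 < d)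
    (h : Real.exp 1 ^ 2 * d ^ 2 ≤ a * b) :
    1 ≤ 1 / 2 * Real.log a + 1 / 2 * Real.log b - Real.log d := by
  have h1 : Real.log (Real.exp 1 ^ 2 * d ^ 2) ≤ Real.log (a * b) :=
    Real.log_le_log (by positivity) h
  rw [Real.log_mul ha.ne' hb.ne', Real.log_mul (by positivity) (by positivity), Real.log_pow,
    Real.log_pow, Real.log_exp] at h1
  push_cast at h1
  linarith

theorem RE_re_ge {ψ δ : ℂ} (h0 : 1 / 50 ≤ δ.re) (h1 : δ.re ≤ 1 / 10) (hy : |δ.im| ≤ 1 / 40)
    (hψ : |ψ.re| ≤ 21 / 20) : 1 ≤ (RE ψ δ).re := by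
  rw [RE_re]
  have hp := Real.pi_pos
  have p1 := pi_lo
  have p2 := pi_hi
  have hB : |2 * π * δ.im| ≤ π / 20 := by
    rw [abs_mul, abs_of_pos (by positivity : 0 < 2 * π)]
    nlinarith
  set A := 2 * π * δ.re with hA
  set B := 2 * π * δ.im with hBd
  have hA0 : 125 / 1000 ≤ A := by nlinarith
  have hA1 : A ≤ π / 5 := by nlinarith
  have hC := cosh_B hB
  have hC1 := Real.one_le_cosh B
  have hcA := cos_ge_5 (by linarith) hA1
  have hcA1 : Real.cos A < 1 := by
    rw [← Real.cos_zero]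
    exact Real.cos_lt_cos_of_nonneg_of_le_pi le_rfl (by linarith) (by linarith)
  rw [abs_le] at hψ
  -- the two factors
  have key : ∀ w : ℝ, |w| ≤ 168 / 100 → -(12 / 100) ≤ Real.cos w := by
    intro w hw
    rw [← Real.cos_abs]
    have h2 : Real.cos (168 / 100) ≤ Real.cos |w| :=
      Real.cos_le_cos_of_nonneg_of_le_pi (abs_nonneg _) (by linarith) hw
    have h3 : -(12 / 100 : ℝ) ≤ Real.cos (168 / 100) := le_cos' (by norm_num) (by norm_num)
    linarith
  have key2 : ∀ w : ℝ, |w| ≤ 93 / 100 → 1 / 2 ≤ Real.cos w := by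
    intro w hw
    rw [← Real.cos_abs]
    have h2 : Real.cos (93 / 100) ≤ Real.cos |w| :=
      Real.cos_le_cos_of_nonneg_of_le_pi (abs_nonneg _) (by linarith) hw
    have h3 : (1 / 2 : ℝ) ≤ Real.cos (93 / 100) := le_cos' (by norm_num) (by norm_num)
    linarith
  have hprod : 1 ≤ (Real.cos (A + ψ.re) + Real.cosh (B + ψ.im)) *
      (Real.cos (A - ψ.re) + Real.cosh (B - ψ.im)) ∧
      0 < Real.cos (A + ψ.re) + Real.cosh (B + ψ.im) ∧
      0 < Real.cos (A - ψ.re) + Real.cosh (B - ψ.im) := by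
    have c1 := Real.one_le_cosh (B + ψ.im)
    have c2 := Real.one_le_cosh (B - ψ.im)
    rcases le_total 0 ψ.re with h | h
    · have k1 := key (A + ψ.re) (by rw [abs_le]; constructor <;> linarith)
      have k2 := key2 (A - ψ.re) (by rw [abs_le]; constructor <;> linarith)
      refine ⟨?_, by linarith, by linarith⟩
      nlinarith
    · have k1 := key (A - ψ.re) (by rw [abs_le]; constructor <;> linarith)
      have k2 := key2 (A + ψ.re) (by rw [abs_le]; constructor <;> linarith)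
      refine ⟨?_, by linarith, by linarith⟩
      nlinarith
  obtain ⟨q1, q2, q3⟩ := hprod
  have hd : 0 < Real.cosh B - Real.cos A := by linarith
  refine half_log (by positivity) (by positivity) (by positivity) ?_
  have he := Real.exp_one_lt_d9
  have he0 := Real.exp_pos 1
  have h5 : Real.cosh B - Real.cos A ≤ 21 / 100 := by linarith
  have h6 : (2 * (Real.cosh B - Real.cos A)) ^ 2 ≤ 4 * (21 / 100) ^ 2 := by nlinarith
  have h7 : Real.exp 1 ^ 2 ≤ 75 / 10 := by nlinarith
  have h8 : Real.exp 1 ^ 2 * (2 * (Real.cosh B - Real.cos A)) ^ 2 ≤ 75 / 10 * (4 * (21 / 100) ^ 2) :=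
    mul_le_mul h7 h6 (by positivity) (by norm_num)
  nlinarith

/-! ### The imaginary part -/

theorem abs_le_abs_tan {t : ℝ} (h : |t| < π / 2) : |t| ≤ |Real.tan t| := by
  rcases le_total 0 t with h0 | h0
  · rw [abs_of_nonneg h0] at h ⊢
    exact (Real.le_tan h0 h).trans (le_abs_self _)
  · rw [abs_of_nonpos h0] at h ⊢
    have := Real.le_tan (x := -t) (by linarith) h
    rw [Real.tan_neg] at this
    exact this.trans (neg_le_abs _)

theorem abs_arg_le {z : ℂ} (h : 0 < z.re) : |z.arg| ≤ |z.im| / z.re := by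
  have h1 : |z.arg| < π / 2 := Complex.abs_arg_lt_pi_div_two_iff.2 (Or.inl h)
  have h2 := abs_le_abs_tan h1
  rw [Complex.tan_arg, abs_div, abs_of_pos h] at h2
  exact h2

theorem arg_two (z : ℂ) : (2 * z).arg = z.arg := by
  have := Complex.arg_real_mul z (by norm_num : (0:ℝ) < 2)
  push_cast at this
  exact this

theorem log_two_im (z : ℂ) : (Complex.log (2 * z)).im = z.arg := by
  rw [Complex.log_im, arg_two]

/-- the argument of `cos (ψ / 2)` -/
theorem arg_cos_half {ψ : ℂ} (hu : |ψ.re| ≤ 21 / 20) (hv : |ψ.im| ≤ 1 / 4) :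
    0 < (Complex.cos (ψ / 2)).re ∧ |(Complex.cos (ψ / 2)).arg| ≤ 73 / 1000 := by
  have p1 := pi_lo
  have hu2 : |ψ.re / 2| ≤ 21 / 40 := by rw [abs_div, abs_two]; linarith
  have hv2 : |ψ.im / 2| ≤ 1 / 8 := by rw [abs_div, abs_two]; linarith
  have hc : 8653 / 10000 ≤ Real.cos (ψ.re / 2) := by
    rw [← Real.cos_abs]
    have h1 : Real.cos (21 / 40) ≤ Real.cos |ψ.re / 2| :=
      Real.cos_le_cos_of_nonneg_of_le_pi (abs_nonneg _) (by linarith) hu2
    have h2 : (8653 / 10000 : ℝ) ≤ Real.cos (21 / 40) := le_cos' (by norm_num) (by norm_num)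
    linarith
  have hs : |Real.sin (ψ.re / 2)| ≤ 5013 / 10000 := by
    have h1 : |Real.sin (ψ.re / 2)| = Real.sin |ψ.re / 2| :=
      Real.abs_sin_eq_sin_abs_of_abs_le_pi (by linarith)
    rw [h1]
    have h2 : Real.sin |ψ.re / 2| ≤ Real.sin (21 / 40) :=
      Real.sin_le_sin_of_le_of_le_pi_div_two (by linarith [abs_nonneg (ψ.re / 2)]) (by linarith) hu2
    exact h2.trans ((sin_le5 (by norm_num)).trans (by norm_num))
  have hsh : |Real.sinh (ψ.im / 2)| ≤ 1254 / 10000 := by
    rw [Real.abs_sinh]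
    have h1 : Real.sinh |ψ.im / 2| ≤ Real.sinh (1 / 8) := Real.sinh_le_sinh.2 hv2
    exact h1.trans (sinh_le' (by norm_num) (by norm_num) (by norm_num))
  have hch := Real.one_le_cosh (ψ.im / 2)
  have hre : (Complex.cos (ψ / 2)).re = Real.cos (ψ.re / 2) * Real.cosh (ψ.im / 2) := by
    rw [cos_re, half_re, half_im]
  have him : (Complex.cos (ψ / 2)).im = -(Real.sin (ψ.re / 2) * Real.sinh (ψ.im / 2)) := by
    rw [cos_im, half_re, half_im]
  have hpos : 8653 / 10000 ≤ (Complex.cos (ψ / 2)).re := by rw [hre]; nlinarith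
  have hpos' : 0 < (Complex.cos (ψ / 2)).re := by linarith
  refine ⟨hpos', (abs_arg_le hpos').trans ?_⟩
  rw [div_le_iff₀ hpos', him, abs_neg, abs_mul]
  calc |Real.sin (ψ.re / 2)| * |Real.sinh (ψ.im / 2)| ≤ 5013 / 10000 * (1254 / 10000) :=
        mul_le_mul hs hsh (abs_nonneg _) (by norm_num)
    _ ≤ 73 / 1000 * (8653 / 10000) := by norm_num
    _ ≤ _ := by gcongr

/-- squares of real parts -/
theorem sq_re (z : ℂ) : (z ^ 2).re = z.re ^ 2 - z.im ^ 2 := by
  rw [sq, Complex.mul_re]; ring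

theorem cs_im (w : ℂ) : (Complex.cos w / Complex.sin w).im =
    -(Real.sinh (2 * w.im) / (Real.cosh (2 * w.im) - Real.cos (2 * w.re))) := by
  have h2 := Real.cosh_sq w.im
  have h3 := Real.sin_sq_add_cos_sq w.re
  rw [Complex.div_im, nsq_sin, ← sub_div]
  have e : (Complex.cos w).im * (Complex.sin w).re - (Complex.cos w).re * (Complex.sin w).im =
      -(Real.sinh (2 * w.im) / 2) := by
    rw [cos_re, cos_im, sin_re, sin_im, Real.sinh_two_mul]
    linear_combination (-(Real.sinh w.im * Real.cosh w.im)) * h3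
  rw [e, ← neg_div, div_div_div_cancel_right₀ (by norm_num), neg_div]

theorem sc_im (w : ℂ) : (Complex.sin w / Complex.cos w).im =
    Real.sinh (2 * w.im) / (Real.cos (2 * w.re) + Real.cosh (2 * w.im)) := by
  have h2 := Real.cosh_sq w.im
  have h3 := Real.sin_sq_add_cos_sq w.re
  rw [Complex.div_im, nsq_cos, ← sub_div]
  have e : (Complex.sin w).im * (Complex.cos w).re - (Complex.sin w).re * (Complex.cos w).im =
      (Real.sinh (2 * w.im) / 2) := by
    rw [cos_re, cos_im, sin_re, sin_im, Real.sinh_two_mul]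
    linear_combination ((Real.sinh w.im * Real.cosh w.im)) * h3
  rw [e, div_div_div_cancel_right₀ (by norm_num)]

/-- `Re cot² > Re tan²` -/
theorem cot_tan {ψ δ : ℂ} (h0 : 1 / 20 ≤ δ.re) (h1 : δ.re ≤ 8 / 25) (hy : |δ.im| ≤ 1 / 40)
    (hu : |ψ.re| ≤ 21 / 20) :
    0 < ((Complex.cos (π * δ) / Complex.sin (π * δ)) ^ 2 -
      (Complex.sin (ψ / 2) / Complex.cos (ψ / 2)) ^ 2).re := by
  have hp := Real.pi_pos
  have p1 := pi_lo
  have p2 := pi_hi
  have hB : |2 * π * δ.im| ≤ π / 20 := by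
    rw [abs_mul, abs_of_pos (by positivity : 0 < 2 * π)]
    nlinarith
  rw [Complex.sub_re, sq_re, sq_re, cs_re, cs_im, sc_re, sc_im, pi_re, pi_im, half_re, half_im]
  have e5 : 2 * (π * δ.re) = 2 * π * δ.re := by ring
  have e6 : 2 * (π * δ.im) = 2 * π * δ.im := by ring
  have e7 : 2 * (ψ.re / 2) = ψ.re := by ring
  have e8 : 2 * (ψ.im / 2) = ψ.im := by ring
  rw [e5, e6, e7, e8]
  set A := 2 * π * δ.re with hA
  set B := 2 * π * δ.im with hBd
  have hA0 : π / 10 ≤ A := by nlinarith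
  have hA1 : A ≤ 16 * π / 25 := by nlinarith
  have hC := cosh_B hB
  have hC1 := Real.one_le_cosh B
  have hX0 := cos_ge (by linarith) hA1
  have hX1 := cos_le_10 hA0 hA1
  have hd : 0 < Real.cosh B - Real.cos A := by linarith
  have hk := cos_u hu
  have hk1 := Real.cos_le_one ψ.re
  have hv1 := Real.one_le_cosh ψ.im
  have hd2 : 0 < Real.cos ψ.re + Real.cosh ψ.im := by linarith
  -- the second part
  have hT : (Real.sin ψ.re / (Real.cos ψ.re + Real.cosh ψ.im)) ^ 2 -
      (Real.sinh ψ.im / (Real.cos ψ.re + Real.cosh ψ.im)) ^ 2 ≤ 3361 / 10000 := by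
    have h2 : 0 ≤ (Real.sinh ψ.im / (Real.cos ψ.re + Real.cosh ψ.im)) ^ 2 := sq_nonneg _
    have h3 : (Real.sin ψ.re / (Real.cos ψ.re + Real.cosh ψ.im)) ^ 2 ≤ 3361 / 10000 := by
      rw [div_pow, div_le_iff₀ (by positivity)]
      have h4 := Real.sin_sq_add_cos_sq ψ.re
      have h5 : (1 + Real.cos ψ.re) ^ 2 ≤ (Real.cos ψ.re + Real.cosh ψ.im) ^ 2 := by nlinarith
      nlinarith
    linarith
  have hK : 3362 / 10000 ≤ (Real.sin A / (Real.cosh B - Real.cos A)) ^ 2 -
      (-(Real.sinh B / (Real.cosh B - Real.cos A))) ^ 2 := by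
    rw [neg_sq, div_pow, div_pow, ← sub_div, le_div_iff₀ (by positivity)]
    have h4 := Real.sin_sq_add_cos_sq A
    have h5 := Real.cosh_sq B
    have h6 : Real.sin A ^ 2 - Real.sinh B ^ 2 = 2 - Real.cos A ^ 2 - Real.cosh B ^ 2 := by linarith
    rw [h6]
    nlinarith [mul_nonneg (sub_nonneg.2 hX0) (sub_nonneg.2 hX1),
      mul_nonneg (sub_nonneg.2 hC) (sub_nonneg.2 hC1)]
  linarith

theorem prod_cos' (a b : ℂ) : Complex.cos (a + b) * Complex.cos (a - b) =
    Complex.cos a ^ 2 - Complex.sin b ^ 2 := by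
  rw [Complex.cos_add, Complex.cos_sub]
  have h1 := Complex.sin_sq_add_cos_sq a
  have h2 := Complex.sin_sq_add_cos_sq b
  linear_combination (-Complex.sin b ^ 2) * h1 + (Complex.cos a ^ 2) * h2

/-- bound of the imaginary part -/
theorem RE_im_le {ψ δ : ℂ} (h0 : 1 / 20 ≤ δ.re) (h1 : δ.re ≤ 8 / 25) (hy : |δ.im| ≤ 1 / 40)
    (hu : |ψ.re| ≤ 21 / 20) (hv : |ψ.im| ≤ 1 / 4) : |(RE ψ δ).im| ≤ π / 2 + 146 / 1000 := by
  have hp := Real.pi_pos
  have p1 := pi_lo
  have p2 := pi_hi
  have hB : |2 * π * δ.im| ≤ π / 20 := by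
    rw [abs_mul, abs_of_pos (by positivity : 0 < 2 * π)]
    nlinarith
  set z1 := Complex.cos (π * δ + ψ / 2) with hz1
  set z2 := Complex.cos (π * δ - ψ / 2) with hz2
  set s := Complex.sin (π * δ) with hs
  set C := Complex.cos (ψ / 2) with hC
  have r1 : 0 < z1.re := cos_re_pos (abs_add_lt (by linarith) (by linarith) hu)
  have r2 : 0 < z2.re := cos_re_pos (abs_sub_lt (by linarith) (by linarith) hu)
  have r3 : 0 < s.re := sin_re_pos (mem_DS (by linarith) (by linarith))
  obtain ⟨r4, a4⟩ := arg_cos_half hu hv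
  rw [← hC] at r4 a4
  have n1 : z1 ≠ 0 := by rintro h; rw [h] at r1; simp at r1
  have n2 : z2 ≠ 0 := by rintro h; rw [h] at r2; simp at r2
  have n3 : s ≠ 0 := by rintro h; rw [h] at r3; simp at r3
  have n4 : C ≠ 0 := by rintro h; rw [h] at r4; simp at r4
  have g1 : |z1.arg| < π / 2 := Complex.abs_arg_lt_pi_div_two_iff.2 (Or.inl r1)
  have g2 : |z2.arg| < π / 2 := Complex.abs_arg_lt_pi_div_two_iff.2 (Or.inl r2)
  have g3 : |s.arg| < π / 2 := Complex.abs_arg_lt_pi_div_two_iff.2 (Or.inl r3)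
  rw [abs_lt] at g1 g2 g3
  rw [abs_le] at a4
  have him : (RE ψ δ).im = z1.arg + z2.arg - 2 * s.arg := by
    have e : RE ψ δ = Complex.log (2 * z1) + Complex.log (2 * z2) -
      ((2 : ℝ) : ℂ) * Complex.log (2 * s) := by
      unfold RE
      push_cast
      ring
    rw [e, Complex.sub_im, Complex.add_im, Complex.im_ofReal_mul, log_two_im, log_two_im,
      log_two_im]
  -- the products
  have e1 : (z1 * z2).arg = z1.arg + z2.arg :=
    Complex.arg_mul n1 n2 ⟨by linarith [g1.1, g2.1], by linarith [g1.2, g2.2]⟩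
  have e2 : (s * s).arg = s.arg + s.arg :=
    Complex.arg_mul n3 n3 ⟨by linarith [g3.1], by linarith [g3.2]⟩
  have hdiv : ((π : ℂ) * δ * 2).re = 2 * π * δ.re ∧ ((π : ℂ) * δ * 2).im = 2 * π * δ.im := by
    constructor
    · simp; ring
    · simp; ring
  set A := 2 * π * δ.re with hA
  set B := 2 * π * δ.im with hBd
  have hA0 : π / 10 ≤ A := by nlinarith
  have hA1 : A ≤ 16 * π / 25 := by nlinarith
  have hCB := cosh_B hB
  have hC1 := Real.one_le_cosh B
  have hX0 := cos_ge (by linarith) hA1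
  have hX1 := cos_le_10 hA0 hA1
  have hk := cos_u hu
  have hv1 := Real.one_le_cosh ψ.im
  have hXc : (Complex.cos (π * δ * 2)).re = Real.cos A * Real.cosh B := by
    rw [cos_re, hdiv.1, hdiv.2]
  have hss : (s * s).re = (1 - Real.cos A * Real.cosh B) / 2 := by
    have h2 := Complex.cos_sq (π * δ)
    have h3 := Complex.sin_sq_add_cos_sq (π * δ)
    have h4 : s * s = (1 - Complex.cos (π * δ * 2)) / 2 := by
      rw [mul_comm _ (2:ℂ)]
      linear_combination h3 - h2
    rw [h4, ← hXc]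
    simp
  have hzz : (z1 * z2).re = (Real.cos A * Real.cosh B + Real.cos ψ.re * Real.cosh ψ.im) / 2 := by
    have h2 := Complex.cos_sq (π * δ)
    have h3 := Complex.cos_sq (ψ / 2)
    have h4 := Complex.sin_sq_add_cos_sq (ψ / 2)
    have h5 : z1 * z2 = (Complex.cos (π * δ * 2) + Complex.cos ψ) / 2 := by
      rw [hz1, hz2, prod_cos', mul_comm _ (2:ℂ)]
      have e7 : 2 * (ψ / 2) = ψ := by ring
      rw [e7] at h3
      linear_combination h2 + h3 - h4
    rw [h5, Complex.div_ofNat_re, Complex.add_re, hXc, cos_re]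
  have hss0 : 0 < (s * s).re := by
    rw [hss]
    have : Real.cos A * Real.cosh B < 1 := by
      rcases le_total 0 (Real.cos A) with h | h
      · nlinarith
      · nlinarith
    linarith
  have hzz0 : 0 < (z1 * z2).re := by
    rw [hzz]
    have h2 : -(44 / 100) ≤ Real.cos A * Real.cosh B := by nlinarith
    have h3 : 497 / 1000 ≤ Real.cos ψ.re * Real.cosh ψ.im := by nlinarith
    linarith
  have g4 : |(s * s).arg| < π / 2 := Complex.abs_arg_lt_pi_div_two_iff.2 (Or.inl hss0)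
  have g5 : |(z1 * z2).arg| < π / 2 := Complex.abs_arg_lt_pi_div_two_iff.2 (Or.inl hzz0)
  rw [abs_lt] at g4 g5
  -- the quotient
  set w := (Complex.cos (π * δ) / Complex.sin (π * δ)) ^ 2 -
      (Complex.sin (ψ / 2) / Complex.cos (ψ / 2)) ^ 2 with hw
  have hw0 : 0 < w.re := cot_tan h0 h1 hy hu
  have nw : w ≠ 0 := by intro h; rw [h] at hw0; simp at hw0
  have g6 : |w.arg| < π / 2 := Complex.abs_arg_lt_pi_div_two_iff.2 (Or.inl hw0)
  rw [abs_lt] at g6
  have hmul : z1 * z2 = (s * s) * (w * (C * C)) := by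
    rw [hz1, hz2, prod_cos', hw]
    have h3 := Complex.sin_sq_add_cos_sq (π * δ)
    have h4 := Complex.sin_sq_add_cos_sq (ψ / 2)
    rw [← hs, ← hC] at *
    field_simp
    linear_combination (-Complex.cos (π * δ) ^ 2) * h4 + (Complex.sin (ψ / 2) ^ 2) * h3
  have e3 : (C * C).arg = C.arg + C.arg :=
    Complex.arg_mul n4 n4 ⟨by linarith [a4.1], by linarith [a4.2]⟩
  have e4 : (w * (C * C)).arg = w.arg + (C * C).arg :=
    Complex.arg_mul nw (mul_ne_zero n4 n4) (by
      rw [e3]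
      exact ⟨by linarith [g6.1, a4.1], by linarith [g6.2, a4.2]⟩)
  have e5 : (z1 * z2).arg - (s * s).arg = (w * (C * C)).arg := by
    have h2 : Complex.exp (Complex.log (z1 * z2) - Complex.log (s * s) -
        Complex.log (w * (C * C))) = 1 := by
      rw [Complex.exp_sub, Complex.exp_sub, Complex.exp_log (mul_ne_zero n1 n2),
        Complex.exp_log (mul_ne_zero n3 n3), Complex.exp_log (mul_ne_zero nw (mul_ne_zero n4 n4)),
        hmul]
      have := mul_ne_zero nw (mul_ne_zero n4 n4)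
      field_simp
    have h3 : |(Complex.log (z1 * z2) - Complex.log (s * s) - Complex.log (w * (C * C))).im|
        < 2 * π := by
      rw [Complex.sub_im, Complex.sub_im, Complex.log_im, Complex.log_im, Complex.log_im, e4, e3,
        abs_lt]
      constructor <;> linarith [g4.1, g4.2, g5.1, g5.2, g6.1, g6.2, a4.1, a4.2]
    have h4 := eq_zero_of_exp h2 h3
    have h5 := congrArg Complex.im h4
    rw [Complex.sub_im, Complex.sub_im, Complex.log_im, Complex.log_im, Complex.log_im,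
      Complex.zero_im] at h5
    linarith
  have hfin : (RE ψ δ).im = w.arg + (C.arg + C.arg) := by
    rw [him, ← e3, ← e4, ← e5, e1, e2]
    ring
  rw [hfin, abs_le]
  constructor <;> linarith [g6.1, g6.2, a4.1, a4.2]

end Pool.Agent.N559.EK
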