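import Pool.Agent.N559.EK.B

/-!
# Numbers (job EK/6)
-/

set_option autoImplicit false

namespace Pool.Agent.N559.EK

open Filter Topology Metric Set
open scoped Real
open Pool.Agent.N561 Pool.Agent.N496.VS Pool.Agent.N868.VS

theorem pi_lo : 3.141592 < π := Real.pi_gt_d6
theorem pi_hi : π < 3.141593 := Real.pi_lt_d6

theorem cos_u {u : ℝ} (hu : |u| ≤ 21 / 20) : 497 / 1000 ≤ Real.cos u := by
  rw [← Real.cos_abs]
  have h1 : Real.cos (21 / 20) ≤ Real.cos |u| :=
    Real.cos_le_cos_of_nonneg_of_le_pi (abs_nonneg u) (by linarith [pi_lo]) hu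
  have h2 : (497 / 1000 : ℝ) ≤ Real.cos (21 / 20) := le_cos' (by norm_num) (by norm_num)
  linarith

theorem cosh_mono {x c : ℝ} (h : |x| ≤ c) : Real.cosh x ≤ Real.cosh c :=
  Real.cosh_le_cosh.2 (h.trans (le_abs_self c))

theorem cosh_v {v : ℝ} (hv : |v| ≤ 1 / 4) : Real.cosh v ≤ 10316 / 10000 :=
  (cosh_mono hv).trans (cosh_le' (by norm_num) (by norm_num) (by norm_num))

theorem cosh_B {B : ℝ} (hB : |B| ≤ π / 20) : Real.cosh B ≤ 10124 / 10000 := by
  have h1 : |B| ≤ 15708 / 100000 := hB.trans (by linarith [pi_hi])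
  exact (cosh_mono h1).trans (cosh_le' (by norm_num) (by norm_num) (by norm_num))

theorem cosh_Bv {B v : ℝ} (hB : |B| ≤ π / 20) (hv : |v| ≤ 1 / 4) :
    Real.cosh (B + v) ≤ 10847 / 10000 := by
  have h1 : |B + v| ≤ 40708 / 100000 := (abs_add_le B v).trans (by linarith [pi_hi])
  exact (cosh_mono h1).trans (cosh_le' (by norm_num) (by norm_num) (by norm_num))

theorem cosh_Bv1 {B v : ℝ} (hB : |B| ≤ π / 25) (hv : |v| ≤ 1 / 4) :
    Real.cosh (B - v) ≤ 10719 / 10000 := by
  have h1 : |B - v| ≤ 37567 / 100000 := (abs_sub B v).trans (by linarith [pi_hi])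
  exact (cosh_mono h1).trans (cosh_le' (by norm_num) (by norm_num) (by norm_num))

theorem sinh_v {v : ℝ} (hv : |v| ≤ 1 / 4) : |Real.sinh v| ≤ 2527 / 10000 := by
  rw [Real.abs_sinh]
  have h1 : Real.sinh |v| ≤ Real.sinh (1 / 4) := Real.sinh_le_sinh.2 hv
  exact h1.trans (sinh_le' (by norm_num) (by norm_num) (by norm_num))

/-- the angle `16 π / 25` at the right side of the rectangle -/
theorem cos_A : -(4259 / 10000) ≤ Real.cos (16 * π / 25) ∧ Real.cos (16 * π / 25) ≤ -(4257 / 10000) := by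
  have e : 16 * π / 25 = 7 * π / 50 + π / 2 := by ring
  rw [e, Real.cos_add_pi_div_two]
  have h1 : Real.sin (7 * π / 50) ≤ Real.sin (4398231 / 10000000) :=
    Real.sin_le_sin_of_le_of_le_pi_div_two (by linarith [pi_lo]) (by linarith [pi_lo])
      (by linarith [pi_hi])
  have h2 : Real.sin (4398228 / 10000000) ≤ Real.sin (7 * π / 50) :=
    Real.sin_le_sin_of_le_of_le_pi_div_two (by linarith [pi_lo]) (by linarith [pi_lo])
      (by linarith [pi_lo])
  have h3 : Real.sin (4398231 / 10000000) ≤ 4259 / 10000 :=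
    (sin_le5 (by norm_num)).trans (by norm_num)
  have h4 : (4257 / 10000 : ℝ) ≤ Real.sin (4398228 / 10000000) := le_sin' (by norm_num) (by norm_num)
  constructor <;> linarith

theorem sin_A : 9047 / 10000 ≤ Real.sin (16 * π / 25) ∧ Real.sin (16 * π / 25) ≤ 9050 / 10000 := by
  have e : 16 * π / 25 = 7 * π / 50 + π / 2 := by ring
  rw [e, Real.sin_add_pi_div_two]
  have h1 : Real.cos (4398231 / 10000000) ≤ Real.cos (7 * π / 50) :=
    Real.cos_le_cos_of_nonneg_of_le_pi (by linarith [pi_lo]) (by linarith [pi_lo])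
      (by linarith [pi_hi])
  have h2 : Real.cos (7 * π / 50) ≤ Real.cos (4398228 / 10000000) :=
    Real.cos_le_cos_of_nonneg_of_le_pi (by norm_num) (by linarith [pi_lo])
      (by linarith [pi_lo])
  have h3 : (9047 / 10000 : ℝ) ≤ Real.cos (4398231 / 10000000) := le_cos' (by norm_num) (by norm_num)
  have h4 : Real.cos (4398228 / 10000000) ≤ 9050 / 10000 := cos_le' (by norm_num) (by norm_num)
  constructor <;> linarith

/-- the cosine on the rectangle -/
theorem cos_ge {A : ℝ} (h0 : 0 ≤ A) (h1 : A ≤ 16 * π / 25) : -(4259 / 10000) ≤ Real.cos A :=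
  cos_A.1.trans (Real.cos_le_cos_of_nonneg_of_le_pi h0 (by linarith [pi_lo]) h1)

/-- the sine on the right part of the rectangle -/
theorem sin_ge {A : ℝ} (h0 : π / 10 ≤ A) (h1 : A ≤ 16 * π / 25) : 0 < Real.sin A :=
  Real.sin_pos_of_pos_of_lt_pi (by linarith [pi_lo]) (by linarith [pi_lo])

theorem cos_le_10 {A : ℝ} (h0 : π / 10 ≤ A) (h1 : A ≤ 16 * π / 25) : Real.cos A ≤ 9512 / 10000 := by
  have h2 : Real.cos A ≤ Real.cos (314159 / 1000000) :=
    Real.cos_le_cos_of_nonneg_of_le_pi (by norm_num) (by linarith [pi_lo]) (by linarith [pi_lo])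
  exact h2.trans (cos_le' (by norm_num) (by norm_num))

theorem cos_ge_5 {A : ℝ} (h0 : 0 ≤ A) (h1 : A ≤ π / 5) : 8089 / 10000 ≤ Real.cos A := by
  have h2 : Real.cos (628319 / 1000000) ≤ Real.cos A :=
    Real.cos_le_cos_of_nonneg_of_le_pi h0 (by linarith [pi_lo]) (by linarith [pi_hi])
  exact le_trans (le_cos' (by norm_num) (by norm_num)) h2

theorem den_pos {θ η : ℝ} (h : |θ| < π) : 0 < Real.cos θ + Real.cosh η := by
  have h1 : -1 < Real.cos θ := by
    rw [← Real.cos_abs, ← Real.cos_pi]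
    exact Real.cos_lt_cos_of_nonneg_of_le_pi (abs_nonneg θ) le_rfl h
  linarith [Real.one_le_cosh η]

/-- the real part of the second derivative is negative -/
theorem GG1_pos {A B u v : ℝ} (hA : π / 25 ≤ A) (hA2 : A ≤ 16 * π / 25) (hB : |B| ≤ π / 20)
    (hu : |u| ≤ 21 / 20) : 0 < GG1 A B u v := by
  wlog hu0 : 0 ≤ u generalizing u v with H
  · rw [← GG1_neg]
    exact H (by rwa [abs_neg]) (by linarith)
  rw [abs_of_nonneg hu0] at hu
  have p1 := pi_lo
  have p2 := pi_hi
  have hs1 : 0 ≤ Real.sin (A + u) := Real.sin_nonneg_of_nonneg_of_le_pi (by linarith) (by linarith)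
  have hd1 : 0 < Real.cos (A + u) + Real.cosh (B + v) :=
    den_pos (by rw [abs_lt]; constructor <;> linarith)
  have hd2 : 0 < Real.cos (A - u) + Real.cosh (B - v) :=
    den_pos (by rw [abs_lt]; constructor <;> linarith)
  have hsA : 0 < Real.sin A := Real.sin_pos_of_pos_of_lt_pi (by linarith) (by linarith)
  have hcA : Real.cos A < 1 := by
    rw [← Real.cos_zero]
    exact Real.cos_lt_cos_of_nonneg_of_le_pi le_rfl (by linarith) (by linarith)
  have hC1 := Real.one_le_cosh B
  have hd3 : 0 < Real.cosh B - Real.cos A := by linarith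
  have t1 : 0 ≤ Real.sin (A + u) / (Real.cos (A + u) + Real.cosh (B + v)) := by positivity
  have t3 : 0 < Real.sin A / (Real.cosh B - Real.cos A) := by positivity
  unfold GG1
  by_cases h : u ≤ A
  · have t2 : 0 ≤ Real.sin (A - u) / (Real.cos (A - u) + Real.cosh (B - v)) :=
      div_nonneg (Real.sin_nonneg_of_nonneg_of_le_pi (by linarith) (by linarith)) hd2.le
    linarith
  · push Not at h
    have t2 : -(3 / 5) ≤ Real.sin (A - u) / (Real.cos (A - u) + Real.cosh (B - v)) := by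
      rw [le_div_iff₀ hd2]
      have e1 : Real.sin (A - u) = -Real.sin (u - A) := by rw [← Real.sin_neg]; congr 1; ring
      have e2 : Real.cos (A - u) = Real.cos (u - A) := by rw [← Real.cos_neg]; congr 1; ring
      have h1 : Real.sin (u - A) ≤ u - A := Real.sin_le (by linarith)
      have h2 : 1 - (u - A) ^ 2 / 2 ≤ Real.cos (u - A) := Real.one_sub_sq_div_two_le_cos
      have h3 := Real.one_le_cosh (B - v)
      rw [e1, e2]
      have h4 : u - A ≤ 925 / 1000 := by linarith
      have h5 : 0 ≤ u - A := by linarith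
      nlinarith
    have t4 : 3 / 5 < 2 * (Real.sin A / (Real.cosh B - Real.cos A)) := by
      rw [← mul_div_assoc, lt_div_iff₀ hd3]
      have h1 := sin_ge3 (x := A) (by linarith)
      have h2 : 1 - A ^ 2 / 2 ≤ Real.cos A := Real.one_sub_sq_div_two_le_cos
      have h3 := cosh_B hB
      have h4 : A ≤ 21 / 20 := by linarith
      have h5 : 125 / 1000 ≤ A := by linarith
      nlinarith [mul_nonneg (show (0:ℝ) ≤ A by linarith) (show (0:ℝ) ≤ (21 / 20) ^ 2 - A ^ 2 by nlinarith)]
    linarith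

theorem RF_neg {ψ δ : ℂ} (h0 : 1 / 50 ≤ δ.re) (h1 : δ.re ≤ 8 / 25) (hy : |δ.im| ≤ 1 / 40)
    (hψ : |ψ.re| ≤ 21 / 20) : (RF ψ δ).re < 0 := by
  rw [RF_re]
  have hp := Real.pi_pos
  have hB : |2 * π * δ.im| ≤ π / 20 := by
    rw [abs_mul, abs_of_pos (by positivity : 0 < 2 * π)]
    nlinarith
  have := GG1_pos (v := ψ.im) (A := 2 * π * δ.re) (by nlinarith) (by nlinarith) hB hψ
  have h2 := mul_pos hp this
  linarith

end Pool.Agent.N559.EK
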