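import Pool.Agent.N559.EK.D

/-!
# The right side of the rectangle (job EK/6)
-/

set_option autoImplicit false

namespace Pool.Agent.N559.EK

open Filter Topology Metric Set
open scoped Real
open Pool.Agent.N561 Pool.Agent.N496.VS Pool.Agent.N868.VS
open Pool.Agent.N561.EK (DD POT rr)

/-! ### Derivatives along lines -/

section lines

variable {ψ : ℂ} {x : ℝ} (h0 : 0 < x) (h1 : x < 33 / 100) (hψ : |ψ.re| ≤ 21 / 20) (y : ℝ)

include h0 h1 hψ

theorem hor1 : HasDerivAt (fun t : ℝ => (R1 ψ (t + y * Complex.I)).re)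
    (RE ψ (x + y * Complex.I)).re x := by
  have h := re_path (f := R1 ψ) (γ := fun t : ℝ => (t : ℂ) + y * Complex.I)
    (R1_deriv (ψ := ψ) (δ := (x : ℂ) + y * Complex.I) (by rwa [xy_re]) (by rwa [xy_re]) hψ)
    (path_h x y)
  rwa [mul_one] at h

theorem hor2 : HasDerivAt (fun t : ℝ => (RE ψ (t + y * Complex.I)).re)
    (RF ψ (x + y * Complex.I)).re x := by
  have h := re_path (f := RE ψ) (γ := fun t : ℝ => (t : ℂ) + y * Complex.I)
    (RE_deriv (ψ := ψ) (δ := (x : ℂ) + y * Complex.I) (by rwa [xy_re]) (by rwa [xy_re]) hψ)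
    (path_h x y)
  rwa [mul_one] at h

theorem ver1 : HasDerivAt (fun t : ℝ => (R1 ψ (x + t * Complex.I)).re)
    (-(RE ψ (x + y * Complex.I)).im) y := by
  have h := re_path (f := R1 ψ) (γ := fun t : ℝ => (x : ℂ) + t * Complex.I)
    (R1_deriv (ψ := ψ) (δ := (x : ℂ) + y * Complex.I) (by rwa [xy_re]) (by rwa [xy_re]) hψ)
    (path_v x y)
  rwa [Complex.mul_I_re] at h

theorem ver2 : HasDerivAt (fun t : ℝ => -(RE ψ (x + t * Complex.I)).im)
    (-(RF ψ (x + y * Complex.I)).re) y := by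
  have h := im_path (f := RE ψ) (γ := fun t : ℝ => (x : ℂ) + t * Complex.I)
    (RE_deriv (ψ := ψ) (δ := (x : ℂ) + y * Complex.I) (by rwa [xy_re]) (by rwa [xy_re]) hψ)
    (path_v x y)
  rw [Complex.mul_I_im] at h
  exact h.neg

end lines

/-- the derivative in the real part of the parameter -/
theorem par1 {δ : ℂ} (h0 : 0 < δ.re) (h1 : δ.re < 33 / 100) {u : ℝ} (hu : |u| ≤ 21 / 20) (v : ℝ) :
    HasDerivAt (fun t : ℝ => (R1 (t + v * Complex.I) δ).re)
      (1 / (4 * π) * (Real.log (2 * (Real.cos (2 * π * δ.re + u) + Real.cosh (2 * π * δ.im + v))) -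
        Real.log (2 * (Real.cos (2 * π * δ.re - u) + Real.cosh (2 * π * δ.im - v))))) u := by
  have h := re_path (f := fun z => R1 z δ) (γ := fun t : ℝ => (t : ℂ) + v * Complex.I)
    (R1_par (ψ := (u : ℂ) + v * Complex.I) h0 h1 (by rwa [xy_re])) (path_h u v)
  refine h.congr_deriv ?_
  have e : (1 / (2 * (π : ℂ))) = ((1 / (2 * π) : ℝ) : ℂ) := by push_cast; rfl
  rw [mul_one, e, Complex.re_ofReal_mul, Complex.sub_re, log_re_cos, log_re_cos, Complex.add_re,
    Complex.add_im, Complex.sub_re, Complex.sub_im, pi_re, pi_im, half_re, half_im, xy_re, xy_im]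
  have e1 : 2 * (π * δ.re + u / 2) = 2 * π * δ.re + u := by ring
  have e2 : 2 * (π * δ.im + v / 2) = 2 * π * δ.im + v := by ring
  have e3 : 2 * (π * δ.re - u / 2) = 2 * π * δ.re - u := by ring
  have e4 : 2 * (π * δ.im - v / 2) = 2 * π * δ.im - v := by ring
  rw [e1, e2, e3, e4]
  ring

/-! ### Taylor's formula with bounds -/

theorem taylor_le {h h1 h2 : ℝ → ℝ} {M c : ℝ} (hc : 0 ≤ c)
    (d1 : ∀ t ∈ Icc (0:ℝ) c, HasDerivAt h (h1 t) t) (d2 : ∀ t ∈ Icc (0:ℝ) c, HasDerivAt h1 (h2 t) t)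
    (hM : ∀ t ∈ Icc (0:ℝ) c, h2 t ≤ M) : h c ≤ h 0 + h1 0 * c + M / 2 * c ^ 2 := by
  have k1 : ∀ t ∈ Icc (0:ℝ) c, h1 t ≤ h1 0 + M * t := by
    intro t ht
    refine le_of_deriv (f := h1) (f' := h2) (g := fun s => h1 0 + M * s) (g' := fun _ => M)
      (a := 0) (fun s hs => d2 s ⟨hs.1, hs.2.trans ht.2⟩) (fun s _ => ?_) (by simp)
      (fun s hs => hM s ⟨hs.1.le, hs.2.le.trans ht.2⟩) ht.1
    simpa using ((hasDerivAt_id s).const_mul M).const_add (h1 0)
  refine le_of_deriv (f := h) (f' := h1) (g := fun s => h 0 + h1 0 * s + M / 2 * s ^ 2)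
      (g' := fun s => h1 0 + M * s) (a := 0) d1 (fun s _ => ?_) (by simp)
      (fun s hs => k1 s ⟨hs.1.le, hs.2.le⟩) hc
  refine ((((hasDerivAt_id s).const_mul (h1 0)).const_add (h 0)).add
    (((hasDerivAt_id s).pow 2).const_mul (M / 2))).congr_deriv ?_
  simp
  ring

theorem taylor_ge {h h1 h2 : ℝ → ℝ} {M c : ℝ} (hc : 0 ≤ c)
    (d1 : ∀ t ∈ Icc (0:ℝ) c, HasDerivAt h (h1 t) t) (d2 : ∀ t ∈ Icc (0:ℝ) c, HasDerivAt h1 (h2 t) t)
    (hM : ∀ t ∈ Icc (0:ℝ) c, M ≤ h2 t) : h 0 + h1 0 * c + M / 2 * c ^ 2 ≤ h c := by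
  have := taylor_le (h := fun t => -h t) (h1 := fun t => -h1 t) (h2 := fun t => -h2 t) (M := -M) hc
    (fun t ht => (d1 t ht).neg) (fun t ht => (d2 t ht).neg) (fun t ht => neg_le_neg (hM t ht))
  linarith

/-- both directions, with derivative `0` at `0` -/
theorem taylor_le' {h h1 h2 : ℝ → ℝ} {M c y : ℝ} (hy : |y| ≤ c) (hz : h1 0 = 0)
    (d1 : ∀ t : ℝ, |t| ≤ c → HasDerivAt h (h1 t) t) (d2 : ∀ t : ℝ, |t| ≤ c → HasDerivAt h1 (h2 t) t)
    (hM : ∀ t : ℝ, |t| ≤ c → h2 t ≤ M) : h y ≤ h 0 + M / 2 * y ^ 2 := by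
  rcases le_total 0 y with h0 | h0
  · have hb : ∀ t ∈ Icc (0:ℝ) y, |t| ≤ c := fun t ht => by
      rw [abs_of_nonneg ht.1]
      exact ht.2.trans ((le_abs_self y).trans hy)
    have := taylor_le h0 (fun t ht => d1 t (hb t ht)) (fun t ht => d2 t (hb t ht))
      (fun t ht => hM t (hb t ht))
    rw [hz] at this
    linarith
  · have hb : ∀ t ∈ Icc (0:ℝ) (-y), |-t| ≤ c := fun t ht => by
      rw [abs_neg, abs_of_nonneg ht.1]
      exact ht.2.trans ((neg_le_abs y).trans hy)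
    have := taylor_le (h := fun t => h (-t)) (h1 := fun t => -h1 (-t)) (h2 := fun t => h2 (-t))
      (c := -y) (by linarith) (fun t ht => by
        have := (d1 (-t) (hb t ht)).comp t (hasDerivAt_neg t)
        exact this.congr_deriv (by ring)) (fun t ht => by
        have := ((d2 (-t) (hb t ht)).comp t (hasDerivAt_neg t)).neg
        exact this.congr_deriv (by ring))
      (fun t ht => hM (-t) (hb t ht))
    simp only [neg_zero, hz, neg_neg] at this
    linarith [neg_sq y]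

theorem taylor_ge' {h h1 h2 : ℝ → ℝ} {M c y : ℝ} (hy : |y| ≤ c) (hz : h1 0 = 0)
    (d1 : ∀ t : ℝ, |t| ≤ c → HasDerivAt h (h1 t) t) (d2 : ∀ t : ℝ, |t| ≤ c → HasDerivAt h1 (h2 t) t)
    (hM : ∀ t : ℝ, |t| ≤ c → M ≤ h2 t) : h 0 + M / 2 * y ^ 2 ≤ h y := by
  have := taylor_le' (h := fun t => -h t) (h1 := fun t => -h1 t) (h2 := fun t => -h2 t) (M := -M) hy
    (by rw [hz, neg_zero])
    (fun t ht => (d1 t ht).neg) (fun t ht => (d2 t ht).neg) (fun t ht => neg_le_neg (hM t ht))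
  linarith

/-! ### Purely imaginary parameter -/

/-- on the real axis the derivative is real -/
theorem RE_real {x : ℝ} (h0 : 0 < x) (h1 : x < 33 / 100) (v : ℝ) :
    (RE (v * Complex.I) (x + (0 : ℝ) * Complex.I)).im = 0 := by
  have hψ : |((v : ℂ) * Complex.I).re| ≤ 21 / 20 := by simp; norm_num
  have e0 : (x : ℂ) + (0 : ℝ) * Complex.I = (x : ℂ) := by simp
  rw [e0]
  set z1 := Complex.cos (π * x + v * Complex.I / 2) with hz1
  have r1 : 0 < z1.re := cos_re_pos (abs_add_lt (δ := (x : ℂ)) (by simpa using h0)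
    (by simpa using h1) hψ)
  have e1 : Complex.cos (π * x - v * Complex.I / 2) = (starRingEnd ℂ) z1 := by
    rw [hz1, ← Complex.cos_conj]
    congr 1
    simp only [map_add, map_mul, map_div₀, Complex.conj_ofReal, Complex.conj_I]
    have : (starRingEnd ℂ) 2 = 2 := Complex.conj_ofNat 2
    rw [this]
    ring
  have e2 : Complex.sin (π * x) = ((Real.sin (π * x) : ℝ) : ℂ) := by push_cast; rfl
  have hs : 0 ≤ Real.sin (π * x) := by
    have hp := Real.pi_pos
    exact Real.sin_nonneg_of_nonneg_of_le_pi (by positivity) (by nlinarith)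
  have e : RE (v * Complex.I) x = Complex.log (2 * z1) + Complex.log (2 * (starRingEnd ℂ) z1) -
      ((2 : ℝ) : ℂ) * Complex.log (2 * ((Real.sin (π * x) : ℝ) : ℂ)) := by
    unfold RE
    rw [e1, e2]
    push_cast
    ring
  rw [e, Complex.sub_im, Complex.add_im, Complex.im_ofReal_mul, log_two_im, log_two_im,
    log_two_im, Complex.arg_ofReal_of_nonneg hs, Complex.arg_conj, if_neg]
  · ring
  · intro h
    rw [Complex.arg_eq_pi_iff] at h
    linarith [h.1]

theorem aux_sin {s X : ℝ} (hs : 0 ≤ s) (h : s ^ 2 + X ^ 2 = 1) (hX : X ^ 2 ≤ 1815 / 10000) :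
    1 - 53 / 100 * X ^ 2 ≤ s := by
  have h1 : (1 - 53 / 100 * X ^ 2) ^ 2 ≤ s ^ 2 := by nlinarith [sq_nonneg X]
  exact abs_le_of_sq_le_sq' h1 hs |>.2

/-- the second derivative on the real axis, between `1 / 4` and `8 / 25` -/
theorem GG1_real {A v : ℝ} (h0 : π / 2 ≤ A) (h1 : A ≤ 16 * π / 25) (hv : |v| ≤ 1 / 4) :
    386 / 100 ≤ GG1 A 0 0 v := by
  have p1 := pi_lo
  have hX0 := cos_ge (by linarith) h1
  have hX1 : Real.cos A ≤ 0 := Real.cos_nonpos_of_pi_div_two_le_of_le h0 (by linarith)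
  have hs : 0 < Real.sin A := Real.sin_pos_of_pos_of_lt_pi (by linarith) (by linarith)
  have h4 := Real.sin_sq_add_cos_sq A
  have hC1 := Real.one_le_cosh v
  have hC := cosh_v hv
  have hs2 : 1 - 53 / 100 * Real.cos A ^ 2 ≤ Real.sin A := aux_sin hs.le h4 (by nlinarith)
  unfold GG1
  rw [add_zero, sub_zero, zero_add, zero_sub, Real.cosh_neg, Real.cosh_zero]
  set X := Real.cos A
  set C := Real.cosh v
  set s := Real.sin A
  have hd1 : 0 < X + C := by linarith
  have hd2 : 0 < 1 - X := by linarith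
  have e : s / (X + C) + s / (X + C) + 2 * (s / (1 - X)) = 2 * (s * (1 + C)) / ((X + C) * (1 - X)) := by
    field_simp
    ring
  rw [e, le_div_iff₀ (mul_pos hd1 hd2)]
  have h5 : (1 - 53 / 100 * X ^ 2) * (1 + C) ≤ s * (1 + C) :=
    mul_le_mul_of_nonneg_right hs2 (by linarith)
  have h6 : 193 / 100 * ((X + C) * (1 - X)) ≤ (1 - 53 / 100 * X ^ 2) * (1 + C) := by
    nlinarith [mul_nonneg (sub_nonneg.2 hC1) (neg_nonneg.2 hX1), mul_nonneg (sub_nonneg.2 hC)
      (neg_nonneg.2 hX1), sq_nonneg X, mul_nonneg (sub_nonneg.2 hC1) (sq_nonneg X),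
      mul_nonneg (sub_nonneg.2 hC) (sq_nonneg X), sq_nonneg (X + 1 / 25)]
  linarith

/-- the second derivative at the right side -/
theorem GG1_side {B v : ℝ} : GG1 (16 * π / 25) B 0 v ≤ 4423 / 1000 := by
  obtain ⟨c1, c2⟩ := cos_A
  obtain ⟨s1, s2⟩ := sin_A
  unfold GG1
  rw [add_zero, sub_zero]
  set X := Real.cos (16 * π / 25)
  set s := Real.sin (16 * π / 25)
  have hC1 := Real.one_le_cosh (B + v)
  have hC2 := Real.one_le_cosh (B - v)
  have hC3 := Real.one_le_cosh B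
  have k1 : s / (X + Real.cosh (B + v)) ≤ 905 / 1000 / (5741 / 10000) :=
    div_le_div₀ (by norm_num) (by linarith) (by norm_num) (by linarith)
  have k2 : s / (X + Real.cosh (B - v)) ≤ 905 / 1000 / (5741 / 10000) :=
    div_le_div₀ (by norm_num) (by linarith) (by norm_num) (by linarith)
  have k3 : s / (Real.cosh B - X) ≤ 905 / 1000 / (14257 / 10000) :=
    div_le_div₀ (by norm_num) (by linarith) (by norm_num) (by linarith)
  have : (905 / 1000 / (5741 / 10000) : ℝ) + 905 / 1000 / (5741 / 10000) +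
    2 * (905 / 1000 / (14257 / 10000)) ≤ 4423 / 1000 := by norm_num
  linarith

/-- the difference for a purely imaginary parameter -/
theorem base {v y y1 : ℝ} (hv : |v| ≤ 1 / 4) (hy : |y| ≤ 1 / 40) (hy1 : |y1| ≤ 1 / 50) :
    (R1 (v * Complex.I) ((8 / 25 : ℝ) + y * Complex.I)).re + 231 / 10000 ≤
      (R1 (v * Complex.I) ((1 / 4 : ℝ) + y1 * Complex.I)).re := by
  have p1 := pi_lo
  have p2 := pi_hi
  have hp := Real.pi_pos
  have hψ : |((v : ℂ) * Complex.I).re| ≤ 21 / 20 := by simp; norm_num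
  have hψr : ((v : ℂ) * Complex.I).re = 0 := by simp
  have hψi : ((v : ℂ) * Complex.I).im = v := by simp
  -- the vertical segment at `1 / 4`
  have b1 : (R1 (v * Complex.I) ((1 / 4 : ℝ) + (0 : ℝ) * Complex.I)).re ≤
      (R1 (v * Complex.I) ((1 / 4 : ℝ) + y1 * Complex.I)).re := by
    have := taylor_ge' (h := fun t : ℝ => (R1 (v * Complex.I) ((1 / 4 : ℝ) + t * Complex.I)).re)
      (h1 := fun t : ℝ => -(RE (v * Complex.I) ((1 / 4 : ℝ) + t * Complex.I)).im)
      (h2 := fun t : ℝ => -(RF (v * Complex.I) ((1 / 4 : ℝ) + t * Complex.I)).re) (M := 0)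
      (c := 1 / 50) hy1 (by rw [RE_real (by norm_num) (by norm_num), neg_zero])
      (fun t _ => ver1 (by norm_num) (by norm_num) hψ t)
      (fun t _ => ver2 (by norm_num) (by norm_num) hψ t) (fun t ht => by
        have := RF_neg (ψ := v * Complex.I) (δ := ((1 / 4 : ℝ) : ℂ) + t * Complex.I)
          (by rw [xy_re]; norm_num) (by rw [xy_re]; norm_num)
          (by rw [xy_im]; exact ht.trans (by norm_num)) hψ
        linarith)
    linarith
  -- the vertical segment at `8 / 25`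
  have b2 : (R1 (v * Complex.I) ((8 / 25 : ℝ) + y * Complex.I)).re ≤
      (R1 (v * Complex.I) ((8 / 25 : ℝ) + (0 : ℝ) * Complex.I)).re +
        (π * (4423 / 1000)) / 2 * y ^ 2 := by
    refine taylor_le' (h := fun t : ℝ => (R1 (v * Complex.I) ((8 / 25 : ℝ) + t * Complex.I)).re)
      (h1 := fun t : ℝ => -(RE (v * Complex.I) ((8 / 25 : ℝ) + t * Complex.I)).im)
      (h2 := fun t : ℝ => -(RF (v * Complex.I) ((8 / 25 : ℝ) + t * Complex.I)).re)
      (M := π * (4423 / 1000))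
      (c := 1 / 40) hy (by rw [RE_real (by norm_num) (by norm_num), neg_zero])
      (fun t _ => ver1 (by norm_num) (by norm_num) hψ t)
      (fun t _ => ver2 (by norm_num) (by norm_num) hψ t) (fun t ht => ?_)
    rw [RF_re, neg_neg, xy_re, xy_im, hψr, hψi]
    have e : 2 * π * (8 / 25) = 16 * π / 25 := by ring
    rw [e]
    exact mul_le_mul_of_nonneg_left GG1_side hp.le
  -- the real axis
  have b3 : (R1 (v * Complex.I) ((8 / 25 : ℝ) + (0 : ℝ) * Complex.I)).re ≤
      (R1 (v * Complex.I) ((1 / 4 : ℝ) + (0 : ℝ) * Complex.I)).re +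
        316 / 10000 * (7 / 100) + (-(π * (386 / 100))) / 2 * (7 / 100) ^ 2 := by
    have hd1 : ∀ t ∈ Icc (0:ℝ) (7 / 100), HasDerivAt
        (fun t : ℝ => (R1 (v * Complex.I) (((t + 1 / 4 : ℝ) : ℂ) + (0 : ℝ) * Complex.I)).re)
        ((RE (v * Complex.I) (((t + 1 / 4 : ℝ) : ℂ) + (0 : ℝ) * Complex.I)).re) t := by
      intro t ht
      have h := hor1 (ψ := v * Complex.I) (x := t + 1 / 4) (by linarith [ht.1]) (by linarith [ht.2])
        hψ 0
      have := h.comp t ((hasDerivAt_id t).add_const (1 / 4 : ℝ))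
      exact this.congr_deriv (mul_one _)
    have hd2 : ∀ t ∈ Icc (0:ℝ) (7 / 100), HasDerivAt
        (fun t : ℝ => (RE (v * Complex.I) (((t + 1 / 4 : ℝ) : ℂ) + (0 : ℝ) * Complex.I)).re)
        ((RF (v * Complex.I) (((t + 1 / 4 : ℝ) : ℂ) + (0 : ℝ) * Complex.I)).re) t := by
      intro t ht
      have h := hor2 (ψ := v * Complex.I) (x := t + 1 / 4) (by linarith [ht.1]) (by linarith [ht.2])
        hψ 0
      have := h.comp t ((hasDerivAt_id t).add_const (1 / 4 : ℝ))
      exact this.congr_deriv (mul_one _)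
    have := taylor_le (c := 7 / 100) (M := -(π * (386 / 100))) (by norm_num) hd1 hd2 (fun t ht => by
      rw [RF_re, xy_re, xy_im, hψr, hψi, mul_zero]
      apply neg_le_neg
      refine mul_le_mul_of_nonneg_left ?_ hp.le
      refine GG1_real ?_ ?_ hv
      · nlinarith [mul_nonneg hp.le ht.1]
      · nlinarith [mul_le_mul_of_nonneg_left ht.2 hp.le])
    have e1 : (7 / 100 + 1 / 4 : ℝ) = 8 / 25 := by norm_num
    have e2 : (0 + 1 / 4 : ℝ) = 1 / 4 := by norm_num
    rw [e1, e2] at this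
    have hder : (RE (v * Complex.I) (((1 / 4 : ℝ) : ℂ) + (0 : ℝ) * Complex.I)).re ≤ 316 / 10000 := by
      rw [RE_re, xy_re, xy_im, hψr, hψi, mul_zero, add_zero, sub_zero, zero_add, zero_sub,
        Real.cosh_neg, Real.cosh_zero]
      have e3 : 2 * π * (1 / 4) = π / 2 := by ring
      rw [e3, Real.cos_pi_div_two, zero_add, sub_zero]
      have hC1 := Real.one_le_cosh v
      have hC := cosh_v hv
      rw [Real.log_mul (by norm_num) (by linarith), mul_one]
      have := Real.log_le_sub_one_of_pos (show 0 < Real.cosh v by linarith)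
      linarith
    linarith
  have b4 : (π * (4423 / 1000)) / 2 * y ^ 2 ≤ (π * (4423 / 1000)) / 2 * (1 / 1600) := by
    refine mul_le_mul_of_nonneg_left ?_ (by positivity)
    have h1 : y ^ 2 = |y| ^ 2 := (sq_abs y).symm
    rw [h1]
    nlinarith [abs_nonneg y]
  linarith

/-- the inequality for the derivative in the parameter -/
theorem aux_F {κ σ X s : ℝ} (hκ : 497 / 1000 ≤ κ) (hκ1 : κ ≤ 1) (hσ : 0 ≤ σ) (hσ1 : σ ≤ 868 / 1000)
    (hX : -(4259 / 10000) ≤ X) (hX1 : X ≤ -(4257 / 10000)) (hs : 9047 / 10000 ≤ s) :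
    4 / 5 * ((10719 / 10000 + σ) * (10847 / 10000 + (X * κ - s * σ))) ≤
      (1 - σ) * (1 + (X * κ + s * σ)) := by
  have k1 : 0 ≤ σ * κ := mul_nonneg hσ (by linarith)
  have k2 : 0 ≤ (s - 9047 / 10000) * σ := mul_nonneg (by linarith) hσ
  have k3 : 0 ≤ (s - 9047 / 10000) * σ * (1 - σ) := mul_nonneg k2 (by linarith)
  have k4 : 0 ≤ (X + 4259 / 10000) * κ := mul_nonneg (by linarith) (by linarith)
  have k5 : 0 ≤ (-(4257 / 10000) - X) * (σ * κ) := mul_nonneg (by linarith) k1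
  have k6 : 0 ≤ σ * (κ - 497 / 1000) := mul_nonneg hσ (by linarith)
  have k7 : 0 ≤ σ * (868 / 1000 - σ) := mul_nonneg hσ (by linarith)
  nlinarith

/-- the derivative in the parameter -/
theorem par_bound {u v B B1 : ℝ} (hu0 : 0 ≤ u) (hu : u ≤ 21 / 20) (hv : |v| ≤ 1 / 4)
    (hB : |B| ≤ π / 20) (hB1 : |B1| ≤ π / 25) :
    -(1 / 4) ≤ (Real.log (2 * (Real.cos (π / 2 + u) + Real.cosh (B1 + v))) -
        Real.log (2 * (Real.cos (π / 2 - u) + Real.cosh (B1 - v)))) -
      (Real.log (2 * (Real.cos (16 * π / 25 + u) + Real.cosh (B + v))) -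
        Real.log (2 * (Real.cos (16 * π / 25 - u) + Real.cosh (B - v)))) := by
  have p1 := pi_lo
  have p2 := pi_hi
  have hd1 : 0 < Real.cos (π / 2 + u) + Real.cosh (B1 + v) :=
    den_pos (by rw [abs_lt]; constructor <;> linarith)
  have hd2 : 0 < Real.cos (π / 2 - u) + Real.cosh (B1 - v) :=
    den_pos (by rw [abs_lt]; constructor <;> linarith)
  have hd3 : 0 < Real.cos (16 * π / 25 + u) + Real.cosh (B + v) :=
    den_pos (by rw [abs_lt]; constructor <;> linarith)
  have hd4 : 0 < Real.cos (16 * π / 25 - u) + Real.cosh (B - v) :=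
    den_pos (by rw [abs_lt]; constructor <;> linarith)
  obtain ⟨c1, c2⟩ := cos_A
  obtain ⟨s1, s2⟩ := sin_A
  have hκ := cos_u (u := u) (by rwa [abs_of_nonneg hu0])
  have hκ1 := Real.cos_le_one u
  have hσ : 0 ≤ Real.sin u := Real.sin_nonneg_of_nonneg_of_le_pi hu0 (by linarith)
  have h4 := Real.sin_sq_add_cos_sq u
  have hσ1 : Real.sin u ≤ 868 / 1000 := by nlinarith
  have hF := aux_F hκ hκ1 hσ hσ1 c1 c2 s1
  have e1 : Real.cos (π / 2 + u) = -Real.sin u := by
    rw [add_comm, Real.cos_add_pi_div_two]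
  have e2 : Real.cos (π / 2 - u) = Real.sin u := Real.cos_pi_div_two_sub u
  have e3 : Real.cos (16 * π / 25 + u) = Real.cos (16 * π / 25) * Real.cos u -
      Real.sin (16 * π / 25) * Real.sin u := Real.cos_add _ _
  have e4 : Real.cos (16 * π / 25 - u) = Real.cos (16 * π / 25) * Real.cos u +
      Real.sin (16 * π / 25) * Real.sin u := Real.cos_sub _ _
  have g1 := Real.one_le_cosh (B1 + v)
  have g2 := cosh_Bv1 hB1 hv
  have g3 := cosh_Bv hB hv
  have g4 := Real.one_le_cosh (B - v)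
  have hmul : 4 / 5 * ((Real.cos (π / 2 - u) + Real.cosh (B1 - v)) *
      (Real.cos (16 * π / 25 + u) + Real.cosh (B + v))) ≤
      (Real.cos (π / 2 + u) + Real.cosh (B1 + v)) *
      (Real.cos (16 * π / 25 - u) + Real.cosh (B - v)) := by
    have a1 : (Real.cos (π / 2 - u) + Real.cosh (B1 - v)) *
      (Real.cos (16 * π / 25 + u) + Real.cosh (B + v)) ≤ (10719 / 10000 + Real.sin u) *
        (10847 / 10000 + (Real.cos (16 * π / 25) * Real.cos u -
          Real.sin (16 * π / 25) * Real.sin u)) :=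
      mul_le_mul (by rw [e2]; linarith) (by rw [e3]; linarith) hd3.le (by linarith)
    have a2 : (1 - Real.sin u) * (1 + (Real.cos (16 * π / 25) * Real.cos u +
        Real.sin (16 * π / 25) * Real.sin u)) ≤ (Real.cos (π / 2 + u) + Real.cosh (B1 + v)) *
      (Real.cos (16 * π / 25 - u) + Real.cosh (B - v)) :=
      mul_le_mul (by rw [e1]; linarith) (by rw [e4]; linarith) (by nlinarith) hd1.le
    linarith
  rw [Real.log_mul (by norm_num) hd1.ne', Real.log_mul (by norm_num) hd2.ne',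
    Real.log_mul (by norm_num) hd3.ne', Real.log_mul (by norm_num) hd4.ne']
  have h5 := Real.log_le_log (by positivity) hmul
  rw [Real.log_mul (by norm_num) (by positivity), Real.log_mul hd2.ne' hd3.ne',
    Real.log_mul hd1.ne' hd4.ne'] at h5
  have h6 : -(1 / 4) ≤ Real.log (4 / 5) := by
    have h7 := Real.log_le_sub_one_of_pos (show (0:ℝ) < 5 / 4 by norm_num)
    have h8 : Real.log (4 / 5) = -Real.log (5 / 4) := by
      rw [← Real.log_inv]; norm_num
    rw [h8]
    linarith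
  linarith

/-- the right side, one half of the potential -/
theorem half_side {ψ : ℂ} (hu : |ψ.re| ≤ 21 / 20) (hv : |ψ.im| ≤ 1 / 4) {y y1 : ℝ}
    (hy : |y| ≤ 1 / 40) (hy1 : |y1| ≤ 1 / 50) :
    (R1 ψ ((8 / 25 : ℝ) + y * Complex.I)).re < (R1 ψ ((1 / 4 : ℝ) + y1 * Complex.I)).re := by
  wlog h0 : 0 ≤ ψ.re generalizing ψ with H
  · have := H (ψ := -ψ) (by rwa [Complex.neg_re, abs_neg]) (by rwa [Complex.neg_im, abs_neg])
      (by rw [Complex.neg_re]; linarith)
    rwa [R1_neg, R1_neg] at this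
  have p1 := pi_lo
  have hp := Real.pi_pos
  rw [abs_of_nonneg h0] at hu
  set u := ψ.re with hu'
  set v := ψ.im with hv'
  have hψ : ψ = (u : ℂ) + v * Complex.I := (Complex.re_add_im ψ).symm
  have hB : |2 * π * y| ≤ π / 20 := by
    rw [abs_mul, abs_of_pos (by positivity : 0 < 2 * π)]
    nlinarith
  have hB1 : |2 * π * y1| ≤ π / 25 := by
    rw [abs_mul, abs_of_pos (by positivity : 0 < 2 * π)]
    nlinarith
  have key : (R1 ((0 : ℝ) + v * Complex.I) ((1 / 4 : ℝ) + y1 * Complex.I)).re -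
      (R1 ((0 : ℝ) + v * Complex.I) ((8 / 25 : ℝ) + y * Complex.I)).re - 1 / (4 * π) * (1 / 4) * u ≤
      (R1 ((u : ℝ) + v * Complex.I) ((1 / 4 : ℝ) + y1 * Complex.I)).re -
      (R1 ((u : ℝ) + v * Complex.I) ((8 / 25 : ℝ) + y * Complex.I)).re := by
    refine le_of_deriv (a := 0) (b := u)
      (f := fun t : ℝ => (R1 ((0 : ℝ) + v * Complex.I) ((1 / 4 : ℝ) + y1 * Complex.I)).re -
      (R1 ((0 : ℝ) + v * Complex.I) ((8 / 25 : ℝ) + y * Complex.I)).re - 1 / (4 * π) * (1 / 4) * t)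
      (f' := fun _ => -(1 / (4 * π) * (1 / 4)))
      (g := fun t : ℝ => (R1 ((t : ℝ) + v * Complex.I) ((1 / 4 : ℝ) + y1 * Complex.I)).re -
      (R1 ((t : ℝ) + v * Complex.I) ((8 / 25 : ℝ) + y * Complex.I)).re)
      (g' := fun t : ℝ => (1 / (4 * π) * (Real.log (2 * (Real.cos (2 * π *
          (((1 / 4 : ℝ) : ℂ) + y1 * Complex.I).re + t) +
          Real.cosh (2 * π * (((1 / 4 : ℝ) : ℂ) + y1 * Complex.I).im + v))) -
        Real.log (2 * (Real.cos (2 * π * (((1 / 4 : ℝ) : ℂ) + y1 * Complex.I).re - t) +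
          Real.cosh (2 * π * (((1 / 4 : ℝ) : ℂ) + y1 * Complex.I).im - v))))) -
        (1 / (4 * π) * (Real.log (2 * (Real.cos (2 * π *
          (((8 / 25 : ℝ) : ℂ) + y * Complex.I).re + t) +
          Real.cosh (2 * π * (((8 / 25 : ℝ) : ℂ) + y * Complex.I).im + v))) -
        Real.log (2 * (Real.cos (2 * π * (((8 / 25 : ℝ) : ℂ) + y * Complex.I).re - t) +
          Real.cosh (2 * π * (((8 / 25 : ℝ) : ℂ) + y * Complex.I).im - v))))))
      (fun t _ => ?_) (fun t ht => ?_) (by simp) (fun t ht => ?_) h0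
    · exact (((hasDerivAt_id t).const_mul (1 / (4 * π) * (1 / 4))).const_sub _).congr_deriv
        (by simp)
    · have htu : |t| ≤ 21 / 20 := by rw [abs_of_nonneg ht.1]; exact ht.2.trans hu
      exact (par1 (by rw [xy_re]; norm_num) (by rw [xy_re]; norm_num) htu v).sub
        (par1 (by rw [xy_re]; norm_num) (by rw [xy_re]; norm_num) htu v)
    · simp only [xy_re, xy_im]
      have e1 : 2 * π * (1 / 4) = π / 2 := by ring
      have e2 : 2 * π * (8 / 25) = 16 * π / 25 := by ring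
      rw [e1, e2]
      have h5 := par_bound (u := t) ht.1.le (ht.2.le.trans hu) hv hB hB1
      have h6 : (0:ℝ) < 1 / (4 * π) := by positivity
      have h7 := mul_le_mul_of_nonneg_left h5 h6.le
      linarith
  have hb := base hv hy hy1
  have e0 : ((0 : ℝ) : ℂ) + v * Complex.I = v * Complex.I := by simp
  rw [e0] at key
  rw [hψ]
  have h8 : 1 / (4 * π) * (1 / 4) * u ≤ 21 / 1000 := by
    have h9 : 1 / (4 * π) ≤ 1 / (4 * 3.141592) := by
      apply one_div_le_one_div_of_le (by norm_num)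
      linarith
    have h10 : 1 / (4 * π) * (1 / 4) * u ≤ 1 / (4 * 3.141592) * (1 / 4) * (21 / 20) := by
      gcongr
    refine h10.trans (by norm_num)
  linarith

end Pool.Agent.N559.EK
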